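import Mathlib

/-!
# Menger's theorem for sets, in a path-free form

`Conn H D`: the set `D` is connected in `H` (the empty set is allowed).
`Sep H A B T`: the set `T` separates `A` from `B` in `H` (Menger's sense: `T` may meet `A` and `B`).
`Linked H A B k`: there are `k` pairwise disjoint connected sets, each meeting `A` and `B`.
-/

namespace TwwSep

variable {α : Type*}

/-- `D` is connected in `H` (the empty set is connected). -/
def Conn (H : SimpleGraph α) (D : Set α) : Prop :=
  ∀ W : Set α, (∃ x ∈ D, x ∈ W) →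
    (∀ x ∈ D, x ∈ W → ∀ y ∈ D, H.Adj x y → y ∈ W) → D ⊆ W

/-- `T` separates `A` from `B` in `H`. -/
def Sep (H : SimpleGraph α) (A B T : Set α) : Prop :=
  ∃ U : Set α, A ⊆ U ∪ T ∧ Disjoint U T ∧ Disjoint U B ∧
    ∀ x ∈ U, ∀ y, H.Adj x y → y ∈ U ∪ T

/-- There are `k` disjoint connected sets, each meeting `A` and `B`. -/
def Linked (H : SimpleGraph α) (A B : Set α) (k : ℕ) : Prop :=
  ∃ (ι : Finset α) (G : α → Set α), ι.card = k ∧
    (∀ i ∈ ι, Conn H (G i) ∧ (G i ∩ A).Nonempty ∧ (G i ∩ B).Nonempty) ∧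
    (∀ i ∈ ι, ∀ j ∈ ι, i ≠ j → Disjoint (G i) (G j))

theorem Conn.mono {H H' : SimpleGraph α} (hle : H ≤ H') {D : Set α} (h : Conn H D) :
    Conn H' D := by
  intro W hW hcl
  exact h W hW (fun x hx hxW y hy hxy => hcl x hx hxW y hy (hle hxy))

theorem conn_singleton (H : SimpleGraph α) (a : α) : Conn H {a} := by
  rintro W ⟨x, hx, hxW⟩ _ y hy
  rw [Set.mem_singleton_iff] at hx hy
  subst hx; subst hy; exact hxW

theorem Conn.union {H : SimpleGraph α} {D E : Set α} (hD : Conn H D) (hE : Conn H E)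
    {x : α} (hxD : x ∈ D) (hxE : x ∈ E) : Conn H (D ∪ E) := by
  intro W hW hcl
  have hclD : ∀ x ∈ D, x ∈ W → ∀ y ∈ D, H.Adj x y → y ∈ W :=
    fun a ha haW b hb hab => hcl a (Or.inl ha) haW b (Or.inl hb) hab
  have hclE : ∀ x ∈ E, x ∈ W → ∀ y ∈ E, H.Adj x y → y ∈ W :=
    fun a ha haW b hb hab => hcl a (Or.inr ha) haW b (Or.inr hb) hab
  have hxW : x ∈ W := by
    obtain ⟨a, ha, haW⟩ := hW
    rcases ha with ha | ha
    · exact hD W ⟨a, ha, haW⟩ hclD hxD
    · exact hE W ⟨a, ha, haW⟩ hclE hxE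
  exact Set.union_subset (hD W ⟨x, hxD, hxW⟩ hclD) (hE W ⟨x, hxE, hxW⟩ hclE)

theorem Conn.union_adj {H : SimpleGraph α} {D E : Set α} (hD : Conn H D) (hE : Conn H E)
    {x y : α} (hxD : x ∈ D) (hyE : y ∈ E) (hxy : H.Adj x y) : Conn H (D ∪ E) := by
  intro W hW hcl
  have hclD : ∀ x ∈ D, x ∈ W → ∀ y ∈ D, H.Adj x y → y ∈ W :=
    fun a ha haW b hb hab => hcl a (Or.inl ha) haW b (Or.inl hb) hab
  have hclE : ∀ x ∈ E, x ∈ W → ∀ y ∈ E, H.Adj x y → y ∈ W :=
    fun a ha haW b hb hab => hcl a (Or.inr ha) haW b (Or.inr hb) hab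
  have hboth : x ∈ W ∧ y ∈ W := by
    obtain ⟨a, ha, haW⟩ := hW
    rcases ha with ha | ha
    · have hx := hD W ⟨a, ha, haW⟩ hclD hxD
      exact ⟨hx, hcl x (Or.inl hxD) hx y (Or.inr hyE) hxy⟩
    · have hy := hE W ⟨a, ha, haW⟩ hclE hyE
      exact ⟨hcl y (Or.inr hyE) hy x (Or.inl hxD) hxy.symm, hy⟩
  exact Set.union_subset (hD W ⟨x, hxD, hboth.1⟩ hclD) (hE W ⟨y, hyE, hboth.2⟩ hclE)

/-- In a connected set, some edge leaves every proper nonempty part. -/
theorem Conn.exists_adj {H : SimpleGraph α} {D : Set α} (hD : Conn H D) {W : Set α}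
    {x z : α} (hx : x ∈ D) (hxW : x ∈ W) (hz : z ∈ D) (hzW : z ∉ W) :
    ∃ a ∈ D, a ∈ W ∧ ∃ b ∈ D, b ∉ W ∧ H.Adj a b := by
  by_contra hcon
  push Not at hcon
  apply hzW
  apply hD W ⟨x, hx, hxW⟩ _ hz
  intro a ha haW b hb hab
  by_contra hbW
  exact hcon a ha haW b hb hbW hab

/-- A connected set disjoint from `T` that meets a `T`-closed set lies in it. -/
theorem Conn.subset_of_closed {H : SimpleGraph α} {D U T : Set α} (hD : Conn H D)
    (hT : ∀ x ∈ D, x ∉ T) (hU : ∀ x ∈ U, ∀ y, H.Adj x y → y ∈ U ∪ T)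
    (hmeet : ∃ x ∈ D, x ∈ U) : D ⊆ U := by
  apply hD U hmeet
  intro x _ hxU y hy hxy
  rcases hU x hxU y hxy with h | h
  · exact h
  · exact absurd h (hT y hy)

/-- The connected component of `a` in the set `D`. -/
def comp (H : SimpleGraph α) (D : Set α) (a : α) : Set α :=
  {x | x ∈ D ∧ ∀ W : Set α, a ∈ W → (∀ x ∈ D, x ∈ W → ∀ y ∈ D, H.Adj x y → y ∈ W) → x ∈ W}

theorem comp_subset (H : SimpleGraph α) (D : Set α) (a : α) : comp H D a ⊆ D :=
  fun _ hx => hx.1

theorem mem_comp_self (H : SimpleGraph α) {D : Set α} {a : α} (ha : a ∈ D) : a ∈ comp H D a :=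
  ⟨ha, fun _ haW _ => haW⟩

theorem comp_closed (H : SimpleGraph α) {D : Set α} {a x y : α} (hx : x ∈ comp H D a)
    (hy : y ∈ D) (hxy : H.Adj x y) : y ∈ comp H D a :=
  ⟨hy, fun W haW hcl => hcl x hx.1 (hx.2 W haW hcl) y hy hxy⟩

theorem conn_comp (H : SimpleGraph α) {D : Set α} {a : α} (ha : a ∈ D) :
    Conn H (comp H D a) := by
  rintro W ⟨x, hxK, hxW⟩ hcl
  have haW : a ∈ W := by
    by_contra haW
    have := hxK.2 {y | y ∈ comp H D a ∧ y ∉ W} ⟨mem_comp_self H ha, haW⟩ (by
      rintro y hy ⟨hyK, hyW⟩ z hz hyz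
      refine ⟨comp_closed H hyK hz hyz, fun hzW => hyW ?_⟩
      exact hcl z (comp_closed H hyK hz hyz) hzW y hyK hyz.symm)
    exact this.2 hxW
  intro y hy
  have := hy.2 {z | z ∈ comp H D a ∧ z ∈ W} ⟨mem_comp_self H ha, haW⟩ (by
    rintro z hz ⟨hzK, hzW⟩ v hv hzv
    exact ⟨comp_closed H hzK hv hzv, hcl z hzK hzW v (comp_closed H hzK hv hzv) hzv⟩)
  exact this.2

theorem Sep.symm {H : SimpleGraph α} {A B T : Set α} (h : Sep H A B T) : Sep H B A T := by
  obtain ⟨U, hA, hUT, hUB, hcl⟩ := h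
  refine ⟨(U ∪ T)ᶜ, ?_, ?_, ?_, ?_⟩
  · intro b hb
    by_cases hbT : b ∈ T
    · exact Or.inr hbT
    · left
      rintro (h | h)
      · exact Set.disjoint_left.1 hUB h hb
      · exact hbT h
  · rw [Set.disjoint_left]
    intro x hx hxT
    exact hx (Or.inr hxT)
  · rw [Set.disjoint_left]
    intro x hx hxA
    exact hx (hA hxA)
  · intro x hx y hxy
    by_cases hyT : y ∈ T
    · exact Or.inr hyT
    · left
      rintro (h | h)
      · exact hx (hcl y h x hxy.symm)
      · exact hyT h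

/-- A connected set avoiding `T` and meeting both `A` and `B` prevents `T` from separating. -/
theorem not_sep_of_conn {H : SimpleGraph α} {A B T D : Set α} (hD : Conn H D)
    (hT : ∀ x ∈ D, x ∉ T) (hA : (A ∩ D).Nonempty) (hB : (B ∩ D).Nonempty) :
    ¬ Sep H A B T := by
  rintro ⟨U, hAU, hUT, hUB, hcl⟩
  obtain ⟨a, haA, haD⟩ := hA
  obtain ⟨b, hbB, hbD⟩ := hB
  have haU : a ∈ U := by
    rcases hAU haA with h | h
    · exact h
    · exact absurd h (hT a haD)
  have := hD.subset_of_closed hT hcl ⟨a, haD, haU⟩ hbD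
  exact Set.disjoint_left.1 hUB this hbB

theorem Linked.mono {H H' : SimpleGraph α} (hle : H ≤ H') {A B : Set α} {k : ℕ}
    (h : Linked H A B k) : Linked H' A B k := by
  obtain ⟨ι, G, h1, h2, h3⟩ := h
  exact ⟨ι, G, h1, fun i hi => ⟨(h2 i hi).1.mono hle, (h2 i hi).2⟩, h3⟩

/-- A linkage onto a set `B` of exactly `k` elements, indexed by the elements of `B`. -/
theorem Linked.full {H : SimpleGraph α} {A : Set α} {B : Finset α} {k : ℕ}
    (h : Linked H A ↑B k) (hB : B.card = k) :
    ∃ F : α → Set α, (∀ b ∈ B, b ∈ F b ∧ Conn H (F b) ∧ (F b ∩ A).Nonempty) ∧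
      (∀ b ∈ B, ∀ b' ∈ B, b' ∈ F b → b' = b) ∧
      (∀ b ∈ B, ∀ b' ∈ B, b ≠ b' → Disjoint (F b) (F b')) := by
  classical
  obtain ⟨ι, G, h1, h2, h3⟩ := h
  have hch : ∀ i, ∃ b, i ∈ ι → b ∈ G i ∧ b ∈ B := by
    intro i
    by_cases hi : i ∈ ι
    · obtain ⟨b, hb1, hb2⟩ := (h2 i hi).2.2
      exact ⟨b, fun _ => ⟨hb1, by simpa using hb2⟩⟩
    · exact ⟨i, fun h => absurd h hi⟩
  choose f hf using hch
  have hinj : Set.InjOn f ↑ι := by
    intro i hi j hj hij
    by_contra hne
    have := Set.disjoint_left.1 (h3 i hi j hj hne) (hf i hi).1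
    rw [hij] at this
    exact this (hf j hj).1
  have himg : ι.image f = B := by
    apply Finset.eq_of_subset_of_card_le
    · intro b hb
      obtain ⟨i, hi, rfl⟩ := Finset.mem_image.1 hb
      exact (hf i hi).2
    · rw [Finset.card_image_of_injOn hinj, h1, hB]
  have hex : ∀ b, ∃ i, b ∈ B → i ∈ ι ∧ f i = b := by
    intro b
    by_cases hb : b ∈ B
    · rw [← himg, Finset.mem_image] at hb
      obtain ⟨i, hi, hib⟩ := hb
      exact ⟨i, fun _ => ⟨hi, hib⟩⟩
    · exact ⟨b, fun h => absurd h hb⟩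
  choose g hg using hex
  have hdisj : ∀ b ∈ B, ∀ b' ∈ B, b ≠ b' → Disjoint (G (g b)) (G (g b')) := by
    intro b hb b' hb' hne
    apply h3 _ (hg b hb).1 _ (hg b' hb').1
    intro hgg
    apply hne
    rw [← (hg b hb).2, ← (hg b' hb').2, hgg]
  have hmem : ∀ b ∈ B, b ∈ G (g b) := by
    intro b hb
    have := (hf (g b) (hg b hb).1).1
    rwa [(hg b hb).2] at this
  refine ⟨fun b => G (g b), ?_, ?_, hdisj⟩
  · intro b hb
    exact ⟨hmem b hb, (h2 _ (hg b hb).1).1, (h2 _ (hg b hb).1).2.1⟩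
  · intro b hb b' hb' hbb'
    by_contra hne
    exact Set.disjoint_left.1 (hdisj b hb b' hb' (Ne.symm hne)) hbb' (hmem b' hb')

/-- Cutting a linkage set down to one side of a separation. -/
theorem shrink {H : SimpleGraph α} {A U T D : Set α} {p t : α}
    (hAU : A ⊆ U ∪ T) (hcl : ∀ x ∈ U, ∀ y, H.Adj x y → y ∈ U ∪ T)
    (hD : Conn H D) (ht : t ∈ D) (htT : t ∈ T ∨ t = p)
    (huniq : ∀ t' ∈ D, (t' ∈ T ∨ t' = p) → t' = t) (hA : (D ∩ A).Nonempty) :
    ∃ D' ⊆ D, Conn H D' ∧ t ∈ D' ∧ (D' ∩ A).Nonempty ∧ D' ⊆ U ∪ T := by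
  obtain ⟨a, haD, haA⟩ := hA
  by_cases haT : a ∈ T
  · have : a = t := huniq a haD (Or.inl haT)
    subst this
    exact ⟨{a}, by simpa using haD, conn_singleton H a, rfl, ⟨a, rfl, haA⟩, by simpa using Or.inr haT⟩
  · have haU : a ∈ U := (hAU haA).resolve_right haT
    by_cases htT' : t ∈ T
    · have hat : a ≠ t := fun h => haT (h ▸ htT')
      have haDt : a ∈ D \ {t} := ⟨haD, hat⟩
      set K := comp H (D \ {t}) a with hK
      have hKconn : Conn H K := conn_comp H haDt
      have hKU : K ⊆ U := by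
        apply hKconn.subset_of_closed (T := T) _ hcl ⟨a, mem_comp_self H haDt, haU⟩
        intro x hx hxT
        have hx' := comp_subset H _ _ hx
        exact hx'.2 (huniq x hx'.1 (Or.inl hxT))
      have htK : t ∉ K := fun h => (comp_subset H _ _ h).2 rfl
      obtain ⟨x, hxD, hxK, y, hyD, hyK, hxy⟩ :=
        hD.exists_adj (W := K) haD (mem_comp_self H haDt) ht htK
      have hyt : y = t := by
        by_contra hne
        exact hyK (comp_closed H hxK ⟨hyD, hne⟩ hxy)
      subst hyt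
      refine ⟨K ∪ {y}, ?_, hKconn.union_adj (conn_singleton H y) hxK rfl hxy, Or.inr rfl,
        ⟨a, Or.inl (mem_comp_self H haDt), haA⟩, ?_⟩
      · exact Set.union_subset (fun z hz => (comp_subset H _ _ hz).1) (by simpa using ht)
      · exact Set.union_subset (fun z hz => Or.inl (hKU hz)) (by simpa using Or.inr htT')
    · refine ⟨D, subset_rfl, hD, ht, ⟨a, haD, haA⟩, ?_⟩
      have : D ⊆ U := by
        apply hD.subset_of_closed (T := T) _ hcl ⟨a, haD, haU⟩
        intro x hx hxT
        have := huniq x hx (Or.inl hxT)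
        exact htT' (this ▸ hxT)
      exact fun z hz => Or.inl (this hz)

/-- Separators of one side are separators of the whole. -/
theorem sep_lift {H : SimpleGraph α} {A B U T T₁ : Set α} {p q : α}
    (hAU : A ⊆ U ∪ T) (hUB : Disjoint U B)
    (hcl : ∀ x ∈ U, ∀ y, (H.deleteEdges {s(p, q)}).Adj x y → y ∈ U ∪ T)
    (hq : q ∉ U)
    (hS : Sep (H.deleteEdges {s(p, q)}) A (T ∪ {p}) T₁) : Sep H A B T₁ := by
  obtain ⟨U₁, h1, h2, h3, h4⟩ := hS
  refine ⟨U₁ ∩ U, ?_, ?_, ?_, ?_⟩
  · intro a ha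
    rcases h1 ha with h | h
    · rcases hAU ha with h' | h'
      · exact Or.inl ⟨h, h'⟩
      · exact absurd (Or.inl h') (Set.disjoint_left.1 h3 h)
    · exact Or.inr h
  · rw [Set.disjoint_left]
    intro x hx
    exact Set.disjoint_left.1 h2 hx.1
  · rw [Set.disjoint_left]
    intro x hx
    exact Set.disjoint_left.1 hUB hx.2
  · rintro z ⟨hz1, hz2⟩ z' hzz'
    have hne : s(z, z') ≠ s(p, q) := by
      intro he
      rw [Sym2.eq_iff] at he
      rcases he with ⟨he, _⟩ | ⟨he, _⟩
      · exact Set.disjoint_left.1 h3 hz1 (Or.inr he)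
      · exact hq (he ▸ hz2)
    have hadj : (H.deleteEdges {s(p, q)}).Adj z z' := by
      rw [SimpleGraph.deleteEdges_adj]
      exact ⟨hzz', by simpa using hne⟩
    rcases h4 z hz1 z' hadj with h | h
    · rcases hcl z hz2 z' hadj with h' | h'
      · exact Or.inl ⟨h, h'⟩
      · exact absurd (Or.inl h') (Set.disjoint_left.1 h3 h)
    · exact Or.inr h

theorem menger_step {H : SimpleGraph α} {A B U : Set α} {T : Finset α} {x y : α} {k : ℕ}
    (hxy : H.Adj x y)
    (hAU : A ⊆ U ∪ ↑T) (hUT : Disjoint U ↑T) (hUB : Disjoint U B)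
    (hcl : ∀ z ∈ U, ∀ z', (H.deleteEdges {s(x, y)}).Adj z z' → z' ∈ U ∪ ↑T)
    (hx : x ∈ U) (hyU : y ∉ U) (hyT : y ∉ T) (hT : T.card < k)
    (hk : ∀ T : Finset α, Sep H A B ↑T → k ≤ T.card)
    (IH : ∀ (A B : Set α) (k : ℕ),
      (∀ T : Finset α, Sep (H.deleteEdges {s(x, y)}) A B ↑T → k ≤ T.card) →
        Linked (H.deleteEdges {s(x, y)}) A B k) :
    Linked H A B k := by
  classical
  have hle : H.deleteEdges {s(x, y)} ≤ H := SimpleGraph.deleteEdges_le _
  have hxT : x ∉ T := fun h => Set.disjoint_left.1 hUT hx (by simpa using h)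
  -- cardinality
  have hcard : T.card + 1 = k := by
    have : k ≤ (insert x T).card := by
      apply hk
      refine ⟨U \ {x}, ?_, ?_, ?_, ?_⟩
      · intro a ha
        by_cases hax : a = x
        · right; simp [hax]
        · rcases hAU ha with h | h
          · exact Or.inl ⟨h, hax⟩
          · right; simpa using Or.inr h
      · rw [Set.disjoint_left]
        rintro z ⟨hz, hzx⟩ hz'
        simp only [Finset.coe_insert, Set.mem_insert_iff] at hz'
        rcases hz' with h | h
        · exact hzx h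
        · exact Set.disjoint_left.1 hUT hz h
      · rw [Set.disjoint_left]
        rintro z ⟨hz, _⟩
        exact Set.disjoint_left.1 hUB hz
      · rintro z ⟨hz, hzx⟩ z' hzz'
        have hne : s(z, z') ≠ s(x, y) := by
          intro he
          rw [Sym2.eq_iff] at he
          rcases he with ⟨he, _⟩ | ⟨he, _⟩
          · exact hzx he
          · exact hyU (he ▸ hz)
        have hadj : (H.deleteEdges {s(x, y)}).Adj z z' := by
          rw [SimpleGraph.deleteEdges_adj]
          exact ⟨hzz', by simpa using hne⟩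
        by_cases hz'x : z' = x
        · right; simp [hz'x]
        · rcases hcl z hz z' hadj with h | h
          · exact Or.inl ⟨h, hz'x⟩
          · right; simpa using Or.inr h
    rw [Finset.card_insert_of_notMem hxT] at this
    omega
  -- first side
  have L1 : Linked (H.deleteEdges {s(x, y)}) A ↑(insert x T) k := by
    apply IH
    intro T₁ hT₁
    apply hk
    apply sep_lift (U := U) (T := ↑T) (p := x) (q := y) hAU hUB hcl hyU
    have : ((insert x T : Finset α) : Set α) = ↑T ∪ {x} := by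
      ext z; simp [or_comm]
    rwa [this] at hT₁
  obtain ⟨F, hF1, hF2, hF3⟩ := L1.full (by rw [Finset.card_insert_of_notMem hxT, hcard])
  -- second side
  set O : Set α := (U ∪ ↑T)ᶜ with hO
  have hBO : B ⊆ O ∪ ↑T := by
    intro b hb
    by_cases hbT : b ∈ (↑T : Set α)
    · exact Or.inr hbT
    · left
      rintro (h | h)
      · exact Set.disjoint_left.1 hUB h hb
      · exact hbT h
  have hOA : Disjoint O A := by
    rw [Set.disjoint_left]
    intro z hz hzA
    exact hz (hAU hzA)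
  have hclO : ∀ z ∈ O, ∀ z', (H.deleteEdges {s(y, x)}).Adj z z' → z' ∈ O ∪ ↑T := by
    intro z hz z' hzz'
    rw [Sym2.eq_swap] at hzz'
    by_cases hz'T : z' ∈ (↑T : Set α)
    · exact Or.inr hz'T
    · left
      rintro (h | h)
      · exact hz (hcl z' h z hzz'.symm)
      · exact hz'T h
  have hxO : x ∉ O := fun h => h (Or.inl hx)
  have L2 : Linked (H.deleteEdges {s(x, y)}) B ↑(insert y T) k := by
    apply IH
    intro T₁ hT₁
    apply hk
    apply Sep.symm
    apply sep_lift (U := O) (T := ↑T) (p := y) (q := x) hBO hOA hclO hxO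
    have : ((insert y T : Finset α) : Set α) = ↑T ∪ {y} := by
      ext z; simp [or_comm]
    rw [this] at hT₁
    rwa [Sym2.eq_swap]
  obtain ⟨E, hE1, hE2, hE3⟩ := L2.full (by rw [Finset.card_insert_of_notMem hyT, hcard])
  -- shrink
  have hS1 : ∀ t, ∃ D, t ∈ insert x T → D ⊆ F t ∧ Conn H D ∧ t ∈ D ∧ (D ∩ A).Nonempty ∧
      D ⊆ U ∪ ↑T := by
    intro t
    by_cases ht : t ∈ insert x T
    · obtain ⟨D, h1, h2, h3, h4, h5⟩ := shrink (p := x) hAU hcl (hF1 t ht).2.1 (hF1 t ht).1
        (by rcases Finset.mem_insert.1 ht with h | h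
            · exact Or.inr h
            · exact Or.inl (by simpa using h))
        (fun t' ht' h => hF2 t ht t' (by
            rcases h with h | h
            · exact Finset.mem_insert_of_mem (by simpa using h)
            · rw [h]; exact Finset.mem_insert_self _ _) ht')
        (hF1 t ht).2.2
      exact ⟨D, fun _ => ⟨h1, h2.mono hle, h3, h4, h5⟩⟩
    · exact ⟨∅, fun h => absurd h ht⟩
  have hS2 : ∀ t, ∃ D, t ∈ insert y T → D ⊆ E t ∧ Conn H D ∧ t ∈ D ∧ (D ∩ B).Nonempty ∧
      D ⊆ O ∪ ↑T := by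
    intro t
    by_cases ht : t ∈ insert y T
    · have hclO' : ∀ z ∈ O, ∀ z', (H.deleteEdges {s(x, y)}).Adj z z' → z' ∈ O ∪ ↑T := by
        intro z hz z' hzz'
        apply hclO z hz z'
        rwa [Sym2.eq_swap]
      obtain ⟨D, h1, h2, h3, h4, h5⟩ := shrink (p := y) hBO hclO' (hE1 t ht).2.1 (hE1 t ht).1
        (by rcases Finset.mem_insert.1 ht with h | h
            · exact Or.inr h
            · exact Or.inl (by simpa using h))
        (fun t' ht' h => hE2 t ht t' (by
            rcases h with h | h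
            · exact Finset.mem_insert_of_mem (by simpa using h)
            · rw [h]; exact Finset.mem_insert_self _ _) ht')
        (hE1 t ht).2.2
      exact ⟨D, fun _ => ⟨h1, h2.mono hle, h3, h4, h5⟩⟩
    · exact ⟨∅, fun h => absurd h ht⟩
  choose DA hDA using hS1
  choose DB hDB using hS2
  set φ : α → α := fun i => if i = y then x else i with hφ
  have hφmem : ∀ i ∈ insert y T, φ i ∈ insert x T := by
    intro i hi
    simp only [hφ]
    split_ifs with h
    · exact Finset.mem_insert_self _ _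
    · rcases Finset.mem_insert.1 hi with h' | h'
      · exact absurd h' h
      · exact Finset.mem_insert_of_mem h'
  have hφinj : ∀ i ∈ insert y T, ∀ j ∈ insert y T, i ≠ j → φ i ≠ φ j := by
    intro i hi j hj hij
    simp only [hφ]
    split_ifs with h1 h2 h2
    · exact absurd (h1.trans h2.symm) hij
    · intro h
      rcases Finset.mem_insert.1 hj with h' | h'
      · exact h2 h'
      · exact hxT (h ▸ h')
    · intro h
      rcases Finset.mem_insert.1 hi with h' | h'
      · exact h1 h'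
      · exact hxT (h ▸ h')
    · exact hij
  have hcross : ∀ i ∈ insert y T, ∀ j ∈ insert y T, i ≠ j → Disjoint (DA (φ i)) (DB j) := by
    intro i hi j hj hij
    rw [Set.disjoint_left]
    intro t ht1 ht2
    have hφi := hφmem i hi
    have h1 := (hDA (φ i) hφi).2.2.2.2 ht1
    have h2 := (hDB j hj).2.2.2.2 ht2
    have htT : t ∈ T := by
      rcases h2 with h2 | h2
      · exact absurd h1 h2
      · simpa using h2
    have e1 : t = φ i := hF2 (φ i) hφi t (Finset.mem_insert_of_mem htT) ((hDA (φ i) hφi).1 ht1)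
    have e2 : t = j := hE2 j hj t (Finset.mem_insert_of_mem htT) ((hDB j hj).1 ht2)
    have e3 : φ i = i := by
      simp only [hφ]
      split_ifs with h
      · exfalso
        simp only [hφ, h, if_true] at e1
        exact hxT (e1 ▸ htT)
      · rfl
    exact hij (e3.symm.trans (e1.symm.trans e2))
  refine ⟨insert y T, fun i => DA (φ i) ∪ DB i, ?_, ?_, ?_⟩
  · rw [Finset.card_insert_of_notMem hyT, hcard]
  · intro i hi
    have hφi := hφmem i hi
    refine ⟨?_, ?_, ?_⟩
    · show Conn H (DA (φ i) ∪ DB i)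
      by_cases hiy : i = y
      · have e : φ i = x := by simp [hφ, hiy]
        rw [e] at hφi ⊢
        subst hiy
        exact (hDA x hφi).2.1.union_adj (hDB i hi).2.1 (hDA x hφi).2.2.1 (hDB i hi).2.2.1 hxy
      · have e : φ i = i := by simp [hφ, hiy]
        rw [e] at hφi ⊢
        exact (hDA i hφi).2.1.union (hDB i hi).2.1 (hDA i hφi).2.2.1 (hDB i hi).2.2.1
    · obtain ⟨a, ha1, ha2⟩ := (hDA (φ i) hφi).2.2.2.1
      exact ⟨a, Or.inl ha1, ha2⟩
    · obtain ⟨b, hb1, hb2⟩ := (hDB i hi).2.2.2.1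
      exact ⟨b, Or.inr hb1, hb2⟩
  · intro i hi j hj hij
    rw [Set.disjoint_union_left]
    constructor
    · rw [Set.disjoint_union_right]
      refine ⟨?_, hcross i hi j hj hij⟩
      exact Set.disjoint_of_subset (hDA _ (hφmem i hi)).1 (hDA _ (hφmem j hj)).1
        (hF3 _ (hφmem i hi) _ (hφmem j hj) (hφinj i hi j hj hij))
    · rw [Set.disjoint_union_right]
      refine ⟨(hcross j hj i hi hij.symm).symm, ?_⟩
      exact Set.disjoint_of_subset (hDB i hi).1 (hDB j hj).1 (hE3 i hi j hj hij)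

theorem menger_aux [Finite α] : ∀ (n : ℕ) (H : SimpleGraph α), H.edgeSet.ncard = n →
    ∀ (A B : Set α) (k : ℕ), (∀ T : Finset α, Sep H A B ↑T → k ≤ T.card) → Linked H A B k := by
  classical
  intro n
  induction n using Nat.strong_induction_on with
  | _ n ih =>
    intro H hn A B k hk
    by_cases hedge : ∃ x y, H.Adj x y
    · obtain ⟨x, y, hxy⟩ := hedge
      have hfin : H.edgeSet.Finite := Set.toFinite _
      have hlt : (H.deleteEdges {s(x, y)}).edgeSet.ncard < n := by
        rw [← hn]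
        apply Set.ncard_lt_ncard _ hfin
        rw [SimpleGraph.edgeSet_deleteEdges]
        refine ⟨Set.diff_subset, fun h => ?_⟩
        have := h (show s(x, y) ∈ H.edgeSet from hxy)
        exact this.2 rfl
      have IH := ih _ hlt (H.deleteEdges {s(x, y)}) rfl
      by_cases hall : ∀ T : Finset α, Sep (H.deleteEdges {s(x, y)}) A B ↑T → k ≤ T.card
      · exact (IH A B k hall).mono (SimpleGraph.deleteEdges_le _)
      · push Not at hall
        obtain ⟨T, ⟨U, hAU, hUT, hUB, hcl⟩, hT⟩ := hall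
        have hnot : ¬ ∀ z ∈ U, ∀ z', H.Adj z z' → z' ∈ U ∪ ↑T := by
          intro hcl'
          have := hk T ⟨U, hAU, hUT, hUB, hcl'⟩
          omega
        push Not at hnot
        obtain ⟨z, hz, z', hzz', hz'⟩ := hnot
        have hedge : s(z, z') = s(x, y) := by
          by_contra hne
          apply hz'
          apply hcl z hz z'
          rw [SimpleGraph.deleteEdges_adj]
          exact ⟨hzz', by simpa using hne⟩
        rw [← hedge] at hcl IH
        exact menger_step hzz' hAU hUT hUB hcl hz (fun h => hz' (Or.inl h))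
          (fun h => hz' (Or.inr (by simpa using h))) hT hk IH
    · push Not at hedge
      have hfin : (A ∩ B).Finite := Set.toFinite _
      have hk' : k ≤ hfin.toFinset.card := by
        apply hk
        refine ⟨A \ B, ?_, ?_, ?_, ?_⟩
        · intro a ha
          by_cases hb : a ∈ B
          · right; simpa using ⟨ha, hb⟩
          · exact Or.inl ⟨ha, hb⟩
        · rw [Set.disjoint_left]
          rintro a ⟨_, hb⟩ h
          simp only [Set.Finite.coe_toFinset] at h
          exact hb h.2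
        · rw [Set.disjoint_left]
          rintro a ⟨_, hb⟩ h
          exact hb h
        · intro z _ z' h
          exact absurd h (hedge z z')
      obtain ⟨ι, hι, hcard⟩ := Finset.exists_subset_card_eq hk'
      refine ⟨ι, fun i => {i}, hcard, ?_, ?_⟩
      · intro i hi
        have := hι hi
        simp only [Set.Finite.mem_toFinset] at this
        exact ⟨conn_singleton H i, ⟨i, rfl, this.1⟩, ⟨i, rfl, this.2⟩⟩
      · intro i _ j _ hij
        simpa using hij

/-- Menger's theorem. -/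
theorem menger [Finite α] (H : SimpleGraph α) (A B : Set α) (k : ℕ)
    (h : ∀ T : Finset α, Sep H A B ↑T → k ≤ T.card) : Linked H A B k :=
  menger_aux _ H rfl A B k h

end TwwSep
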