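import Mathlib

/-!
# Twin-width (partition sequences) and balanced separators: definitions
-/

namespace TwwSep

open Finset

variable {V : Type*} [DecidableEq V]

/-- Black edge between two parts: every vertex of `A` is adjacent to every vertex of `B`. -/
def BlackAdj (G : SimpleGraph V) (A B : Finset V) : Prop := ∀ a ∈ A, ∀ b ∈ B, G.Adj a b

/-- No edge between two parts. -/
def NonAdj (G : SimpleGraph V) (A B : Finset V) : Prop := ∀ a ∈ A, ∀ b ∈ B, ¬ G.Adj a b

/-- Red edge between two parts: neither black nor absent. -/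
def RedAdj (G : SimpleGraph V) (A B : Finset V) : Prop := ¬ BlackAdj G A B ∧ ¬ NonAdj G A B

open Classical in
/-- `P` is a `d`-sequence of the `n`-vertex graph `G`: `P n` consists of singletons, `P 1` has the
single part `V`, each `P i` arises from `P (i+1)` by merging two parts, and every vertex of the
quotient trigraph `G / P i` has red degree at most `d`. -/
structure IsSequence [Fintype V] (G : SimpleGraph V) (d : ℕ)
    (P : ℕ → Finpartition (Finset.univ : Finset V)) : Prop where
  top : ∀ A ∈ (P (Fintype.card V)).parts, A.card = 1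
  bot : ∀ A ∈ (P 1).parts, A = Finset.univ
  merge : ∀ i, 1 ≤ i → i < Fintype.card V → ∃ A ∈ (P (i + 1)).parts, ∃ B ∈ (P (i + 1)).parts,
    A ≠ B ∧ (P i).parts = insert (A ∪ B) (((P (i + 1)).parts.erase A).erase B)
  red : ∀ i, 1 ≤ i → i ≤ Fintype.card V → ∀ A ∈ (P i).parts,
    ((P i).parts.filter (fun B => B ≠ A ∧ RedAdj G A B)).card ≤ d

/-- `G` has twin-width at most `d`. -/
def TwinWidthLE [Fintype V] (G : SimpleGraph V) (d : ℕ) : Prop :=
  ∃ P : ℕ → Finpartition (Finset.univ : Finset V), IsSequence G d P

/-- The closed neighbourhood `N[X]` of a set `X` of vertices. -/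
def closedNbhd (G : SimpleGraph V) (X : Finset V) : Set V :=
  {v | ∃ x ∈ X, v = x ∨ G.Adj x v}

/-- `S` is a balanced separator of `G`: every connected component of `G - S` has at most
`|V(G)|/2` vertices. -/
def IsBalancedSeparator [Fintype V] (G : SimpleGraph V) (S : Set V) : Prop :=
  ∀ K : (G.induce Sᶜ).ConnectedComponent, 2 * K.supp.ncard ≤ Fintype.card V

end TwwSep
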