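import Pool.Agent.TwwSep.Pair
import Pool.Agent.TwwSep.Defs

/-!
# Twin-width, partition sequences and the quotient by maximal parts with a black neighbour
-/

namespace TwwSep

open Finset

variable {V : Type*} [DecidableEq V]

/-- The quotient graph of `G` by the classes of `f`. -/
def quot (G : SimpleGraph V) (f : V → Finset V) : SimpleGraph (Finset V) where
  Adj A B := A ≠ B ∧ ∃ a b, f a = A ∧ f b = B ∧ G.Adj a b
  symm := ⟨fun A B h => ⟨h.1.symm, by
    obtain ⟨a, b, ha, hb, hab⟩ := h.2
    exact ⟨b, a, hb, ha, hab.symm⟩⟩⟩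
  loopless := ⟨fun A h => h.1 rfl⟩

/-- The invariant kept while the partition is refined. -/
structure Good [Fintype V] (G : SimpleGraph V) (Q : Finpartition (Finset.univ : Finset V))
    (f : V → Finset V) : Prop where
  self : ∀ v, v ∈ f v
  eq : ∀ v, ∀ v' ∈ f v, f v' = f v
  alt : ∀ v, (f v ∈ Q.parts ∧ ∀ B ∈ Q.parts, B ≠ f v → ¬ BlackAdj G (f v) B) ∨
    ∃ r, ∀ x ∈ f v, G.Adj r x
  const : ∀ A ∈ Q.parts, ∀ a ∈ A, ∀ a' ∈ A, f a = f a'
  noPair : ¬ HasPair (quot G f)

theorem noPair_of_noEdge {α : Type*} {H : SimpleGraph α} (h : ∀ x y, ¬ H.Adj x y) :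
    ¬ HasPair H := by
  rintro ⟨Z₁, E₁, Z₂, E₂, h1, _, _, _⟩
  obtain ⟨x, hx⟩ := h1.ne
  obtain ⟨a, b, _, ha, _⟩ := h1.deg x hx
  exact h x a (h1.adj _ _ ha)

theorem good_step [Fintype V] {G : SimpleGraph V} {Q Q' : Finpartition (Finset.univ : Finset V)}
    {f : V → Finset V} (hf : Good G Q f) {A B : Finset V} (hA : A ∈ Q'.parts) (hB : B ∈ Q'.parts)
    (hAB : A ≠ B)
    (hQ : ∀ X, X ∈ Q.parts ↔ (X = A ∪ B ∨ (X ∈ Q'.parts ∧ X ≠ A ∧ X ≠ B)))
    (hred : ∀ T : Finset (Finset V), (∀ X ∈ T, X ∈ Q.parts ∧ X ≠ A ∪ B ∧ RedAdj G (A ∪ B) X) →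
      T.card ≤ 3) :
    ∃ f', Good G Q' f' := by
  classical
  have hAne : A.Nonempty := Q'.nonempty_of_mem_parts hA
  have hBne : B.Nonempty := Q'.nonempty_of_mem_parts hB
  have hdisj : Disjoint A B := Q'.disjoint hA hB hAB
  have hPQ : A ∪ B ∈ Q.parts := (hQ _).2 (Or.inl rfl)
  -- a block is dominated as soon as it has a black neighbour
  have altQ' : ∀ X : Finset V, X ∈ Q'.parts →
      (X ∈ Q'.parts ∧ ∀ B ∈ Q'.parts, B ≠ X → ¬ BlackAdj G X B) ∨ ∃ r, ∀ x ∈ X, G.Adj r x := by
    intro X hX
    by_cases h : ∀ B ∈ Q'.parts, B ≠ X → ¬ BlackAdj G X B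
    · exact Or.inl ⟨hX, h⟩
    · right
      push Not at h
      obtain ⟨C, hC, _, hbl⟩ := h
      obtain ⟨r, hr⟩ := Q'.nonempty_of_mem_parts hC
      exact ⟨r, fun x hx => (hbl x hx r hr).symm⟩
  have altOther : ∀ v, f v ≠ A ∪ B → (f v ∈ Q'.parts ∧ ∀ B ∈ Q'.parts, B ≠ f v → ¬ BlackAdj G (f v) B) ∨
      ∃ r, ∀ x ∈ f v, G.Adj r x := by
    intro v hv
    rcases hf.alt v with h | h
    · rcases (hQ _).1 h.1 with h' | h'
      · exact absurd h' hv
      · exact altQ' _ h'.1
    · exact Or.inr h
  obtain ⟨a₀, ha₀⟩ := hAne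
  obtain ⟨b₀, hb₀⟩ := hBne
  have ha₀P : a₀ ∈ A ∪ B := Finset.mem_union_left _ ha₀
  have hfP : ∀ x ∈ A ∪ B, f x = f a₀ := fun x hx => hf.const _ hPQ x hx a₀ ha₀P
  by_cases hcase : f a₀ = A ∪ B ∧ ∀ C ∈ Q.parts, C ≠ A ∪ B → ¬ BlackAdj G (A ∪ B) C
  · -- the merged part is a naked block
    obtain ⟨hfa, hnaked⟩ := hcase
    have hfP' : ∀ x ∈ A ∪ B, f x = A ∪ B := fun x hx => (hfP x hx).trans hfa
    have hfP'' : ∀ x, f x = A ∪ B → x ∈ A ∪ B := fun x hx => hx ▸ hf.self x
    set f' : V → Finset V := fun v => if v ∈ A then A else if v ∈ B then B else f v with hf'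
    have f'A : ∀ v ∈ A, f' v = A := fun v hv => by simp [hf', hv]
    have f'B : ∀ v ∈ B, f' v = B := fun v hv => by
      have : v ∉ A := fun h => Finset.disjoint_left.1 hdisj h hv
      simp [hf', hv, this]
    have f'O : ∀ v, v ∉ A ∪ B → f' v = f v := fun v hv => by
      rw [Finset.mem_union, not_or] at hv
      simp [hf', hv.1, hv.2]
    have hAP : A ≠ A ∪ B := by
      intro h
      have : b₀ ∈ A := by rw [h]; exact Finset.mem_union_right _ hb₀
      exact Finset.disjoint_left.1 hdisj this hb₀
    have hBP : B ≠ A ∪ B := by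
      intro h
      have : a₀ ∈ B := by rw [h]; exact Finset.mem_union_left _ ha₀
      exact Finset.disjoint_left.1 hdisj ha₀ this
    have houtdisj : ∀ v, v ∉ A ∪ B → ∀ v' ∈ f v, v' ∉ A ∪ B := by
      intro v hv v' hv' hv'P
      have h1 := hf.eq v v' hv'
      have h2 := hfP' v' hv'P
      exact hv (hfP'' v (h1.symm.trans h2))
    refine ⟨f', ?_, ?_, ?_, ?_, ?_⟩
    · intro v
      by_cases hvA : v ∈ A
      · rw [f'A v hvA]; exact hvA
      by_cases hvB : v ∈ B
      · rw [f'B v hvB]; exact hvB
      · rw [f'O v (by simp [hvA, hvB])]; exact hf.self v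
    · intro v v' hv'
      by_cases hvA : v ∈ A
      · rw [f'A v hvA] at hv' ⊢
        exact f'A v' hv'
      by_cases hvB : v ∈ B
      · rw [f'B v hvB] at hv' ⊢
        exact f'B v' hv'
      · have hvP : v ∉ A ∪ B := by simp [hvA, hvB]
        rw [f'O v hvP] at hv' ⊢
        rw [f'O v' (houtdisj v hvP v' hv')]
        exact hf.eq v v' hv'
    · intro v
      by_cases hvA : v ∈ A
      · rw [f'A v hvA]; exact altQ' A hA
      by_cases hvB : v ∈ B
      · rw [f'B v hvB]; exact altQ' B hB
      · have hvP : v ∉ A ∪ B := by simp [hvA, hvB]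
        rw [f'O v hvP]
        exact altOther v (fun h => hvP (hfP'' v h))
    · intro X hX a ha a' ha'
      by_cases hXA : X = A
      · subst hXA
        rw [f'A a ha, f'A a' ha']
      by_cases hXB : X = B
      · subst hXB
        rw [f'B a ha, f'B a' ha']
      · have hXQ : X ∈ Q.parts := (hQ X).2 (Or.inr ⟨hX, hXA, hXB⟩)
        have hout : ∀ x ∈ X, x ∉ A ∪ B := by
          intro x hx hxP
          rcases Finset.mem_union.1 hxP with h | h
          · exact Finset.disjoint_left.1 (Q'.disjoint hX hA hXA) hx h
          · exact Finset.disjoint_left.1 (Q'.disjoint hX hB hXB) hx h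
        rw [f'O a (hout a ha), f'O a' (hout a' ha')]
        exact hf.const X hXQ a ha a' ha'
    · intro hpair
      apply hf.noPair
      -- choose a representative of each part
      have hrep : ∀ X : Finset V, ∃ x : V, X.Nonempty → x ∈ X := by
        intro X
        by_cases h : X.Nonempty
        · obtain ⟨x, hx⟩ := h
          exact ⟨x, fun _ => hx⟩
        · exact ⟨a₀, fun h' => absurd h' h⟩
      choose rep hrep using hrep
      set R := Q.parts.filter (fun X => X ≠ A ∪ B ∧ RedAdj G (A ∪ B) X) with hR
      set N := R.image (fun X => f (rep X)) with hN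
      set q : Finset V → Finset V := fun X => if X = A ∨ X = B then A ∪ B else
        if X = A ∪ B then A else X with hq
      have qA : q A = A ∪ B := by simp [hq]
      have qB : q B = A ∪ B := by simp [hq]
      have qP : q (A ∪ B) = A := by
        have h1 : ¬ (A ∪ B = A ∨ A ∪ B = B) := by
          rintro (h | h)
          · exact hAP h.symm
          · exact hBP h.symm
        show (if A ∪ B = A ∨ A ∪ B = B then A ∪ B else if A ∪ B = A ∪ B then A else A ∪ B) = A
        rw [if_neg h1, if_pos rfl]
      have qO : ∀ X, X ≠ A → X ≠ B → X ≠ A ∪ B → q X = X := by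
        intro X h1 h2 h3
        simp [hq, h1, h2, h3]
      have qf : ∀ v, q (f' v) = f v := by
        intro v
        by_cases hvA : v ∈ A
        · rw [f'A v hvA, qA, hfP' v (Finset.mem_union_left _ hvA)]
        by_cases hvB : v ∈ B
        · rw [f'B v hvB, qB, hfP' v (Finset.mem_union_right _ hvB)]
        · have hvP : v ∉ A ∪ B := by simp [hvA, hvB]
          rw [f'O v hvP]
          apply qO
          · intro h; exact hvA (h ▸ hf.self v)
          · intro h; exact hvB (h ▸ hf.self v)
          · intro h; exact hvP (hfP'' v h)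
      have hid : IsIdent (quot G f') (quot G f) q A B (A ∪ B) N := by
        refine ⟨hAB, qA, qB, ?_, ?_, ?_, ?_, ?_⟩
        · intro X Y hXY
          by_cases hXA : X = A
          · subst hXA
            rw [qA] at hXY
            by_cases hYA : Y = X
            · exact Or.inl hYA.symm
            by_cases hYB : Y = B
            · exact Or.inr (Or.inl ⟨rfl, hYB⟩)
            by_cases hYP : Y = X ∪ B
            · rw [hYP, qP] at hXY
              exact absurd hXY.symm hAP
            · rw [qO Y hYA hYB hYP] at hXY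
              exact absurd hXY.symm hYP
          by_cases hXB : X = B
          · subst hXB
            rw [qB] at hXY
            by_cases hYA : Y = A
            · exact Or.inr (Or.inr ⟨rfl, hYA⟩)
            by_cases hYB : Y = X
            · exact Or.inl hYB.symm
            by_cases hYP : Y = A ∪ X
            · rw [hYP, qP] at hXY
              exact absurd hXY.symm hAP
            · rw [qO Y hYA hYB hYP] at hXY
              exact absurd hXY.symm hYP
          by_cases hXP : X = A ∪ B
          · subst hXP
            rw [qP] at hXY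
            by_cases hYA : Y = A
            · rw [hYA, qA] at hXY
              exact absurd hXY hAP
            by_cases hYB : Y = B
            · rw [hYB, qB] at hXY
              exact absurd hXY hAP
            by_cases hYP : Y = A ∪ B
            · exact Or.inl hYP.symm
            · rw [qO Y hYA hYB hYP] at hXY
              exact absurd hXY.symm hYA
          · rw [qO X hXA hXB hXP] at hXY
            by_cases hYA : Y = A
            · rw [hYA, qA] at hXY
              exact absurd hXY hXP
            by_cases hYB : Y = B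
            · rw [hYB, qB] at hXY
              exact absurd hXY hXP
            by_cases hYP : Y = A ∪ B
            · rw [hYP, qP] at hXY
              exact absurd hXY hXA
            · rw [qO Y hYA hYB hYP] at hXY
              exact Or.inl hXY
        · rintro X Y ⟨hXY, a, b, rfl, rfl, hab⟩
          rw [qf, qf]
          by_cases h : f a = f b
          · exact Or.inl h
          · exact Or.inr ⟨h, a, b, rfl, rfl, hab⟩
        · rintro X Y ⟨hXY, a, b, rfl, rfl, hab⟩
          refine ⟨f' a, f' b, qf a, qf b, ?_, a, b, rfl, rfl, hab⟩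
          intro h
          apply hXY
          rw [← qf a, ← qf b, h]
        · rintro Y ⟨hPY, x, y, hx, rfl, hxy⟩
          have hxP : x ∈ A ∪ B := hfP'' x hx
          have hyP : y ∉ A ∪ B := fun h => hPY (hfP' y h).symm
          obtain ⟨X, hX, hyX⟩ := Q.exists_mem (Finset.mem_univ y)
          have hXP : X ≠ A ∪ B := fun h => hyP (h ▸ hyX)
          have hXred : RedAdj G (A ∪ B) X := by
            refine ⟨hnaked X hX hXP, fun hna => hna x hxP y hyX hxy⟩
          rw [hN, Finset.mem_image]
          refine ⟨X, Finset.mem_filter.2 ⟨hX, hXP, hXred⟩, ?_⟩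
          exact hf.const X hX _ (hrep X ⟨y, hyX⟩) y hyX
        · calc N.card ≤ R.card := Finset.card_image_le
            _ ≤ 3 := hred R (fun X hX => by
                obtain ⟨h1, h2, h3⟩ := Finset.mem_filter.1 hX
                exact ⟨h1, h2, h3⟩)
      exact HasPair.ident hid hpair
  · -- the block of the merged part is dominated
    have hdom : ∃ r, ∀ x ∈ f a₀, G.Adj r x := by
      rcases hf.alt a₀ with h | h
      · exfalso
        apply hcase
        have hfa : f a₀ = A ∪ B := by
          by_contra hne
          have := Finset.disjoint_left.1 (Q.disjoint h.1 hPQ hne) (hf.self a₀)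
          exact this ha₀P
        refine ⟨hfa, ?_⟩
        rw [← hfa]
        exact h.2
      · exact h
    refine ⟨f, hf.self, hf.eq, ?_, ?_, hf.noPair⟩
    · intro v
      by_cases hv : f v = A ∪ B
      · right
        have : f v = f a₀ := by
          have h1 : a₀ ∈ f v := by rw [hv]; exact ha₀P
          exact (hf.eq v a₀ h1).symm
        rw [this]
        exact hdom
      · exact altOther v hv
    · intro X hX a ha a' ha'
      by_cases hXA : X = A
      · subst hXA
        rw [hfP a (Finset.mem_union_left _ ha), hfP a' (Finset.mem_union_left _ ha')]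
      by_cases hXB : X = B
      · subst hXB
        rw [hfP a (Finset.mem_union_right _ ha), hfP a' (Finset.mem_union_right _ ha')]
      · exact hf.const X ((hQ X).2 (Or.inr ⟨hX, hXA, hXB⟩)) a ha a' ha'

theorem good_all [Fintype V] {G : SimpleGraph V} {P : ℕ → Finpartition (Finset.univ : Finset V)}
    (hP : IsSequence G 3 P) : ∀ i, 1 ≤ i → i ≤ Fintype.card V → ∃ f, Good G (P i) f := by
  classical
  intro i hi
  induction i, hi using Nat.le_induction with
  | base =>
    intro hn
    have : Nonempty V := by
      rw [← Fintype.card_pos_iff]; omega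
    have hparts : ∀ A, A ∈ (P 1).parts ↔ A = Finset.univ := by
      intro A
      refine ⟨hP.bot A, ?_⟩
      rintro rfl
      obtain ⟨v⟩ := this
      obtain ⟨A, hA, _⟩ := (P 1).exists_mem (Finset.mem_univ v)
      have e := hP.bot A hA
      exact e ▸ hA
    refine ⟨fun _ => Finset.univ, fun v => Finset.mem_univ v, fun _ _ _ => rfl, ?_, ?_, ?_⟩
    · intro v
      left
      refine ⟨(hparts _).2 rfl, fun B hB hne => absurd ((hparts B).1 hB) hne⟩
    · intro _ _ _ _ _ _
      rfl
    · apply noPair_of_noEdge
      rintro X Y ⟨hXY, a, b, h1, h2, _⟩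
      exact hXY (h1.symm.trans h2)
  | succ i hi ih =>
    intro hn
    obtain ⟨f, hf⟩ := ih (by omega)
    obtain ⟨A, hA, B, hB, hAB, hparts⟩ := hP.merge i hi (by omega)
    refine good_step hf hA hB hAB ?_ ?_
    · intro X
      rw [hparts]
      simp only [Finset.mem_insert, Finset.mem_erase]
      tauto
    · intro T hT
      have hmem : A ∪ B ∈ (P i).parts := by rw [hparts]; exact Finset.mem_insert_self _ _
      refine le_trans (Finset.card_le_card ?_) (hP.red i hi (by omega) (A ∪ B) hmem)
      intro X hX
      obtain ⟨h1, h2, h3⟩ := hT X hX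
      exact Finset.mem_filter.2 ⟨h1, h2, h3⟩

/-- The partition of the vertex set into dominated classes whose quotient graph has no pair of
disjoint cycles that cannot be separated by three vertices. -/
theorem exists_classes [Fintype V] [Nonempty V] {G : SimpleGraph V} (h : TwinWidthLE G 3) :
    ∃ f : V → Finset V, (∀ v, v ∈ f v) ∧ (∀ v, ∀ v' ∈ f v, f v' = f v) ∧
      (∀ v, ∃ r, ∀ x ∈ f v, x = r ∨ G.Adj r x) ∧ ¬ HasPair (quot G f) := by
  obtain ⟨P, hP⟩ := h
  obtain ⟨f, hf⟩ := good_all hP (Fintype.card V) Fintype.card_pos le_rfl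
  refine ⟨f, hf.self, hf.eq, ?_, hf.noPair⟩
  intro v
  rcases hf.alt v with h | ⟨r, hr⟩
  · have := hP.top _ h.1
    obtain ⟨r, hr⟩ := Finset.card_eq_one.1 this
    refine ⟨r, fun x hx => Or.inl ?_⟩
    rw [hr] at hx
    exact Finset.mem_singleton.1 hx
  · exact ⟨r, fun x hx => Or.inr (hr x hx)⟩

omit [DecidableEq V] in
theorem conn_component {G : SimpleGraph V} {S : Set V} (K : (G.induce Sᶜ).ConnectedComponent) :
    Conn G (Subtype.val '' K.supp) := by
  rintro W ⟨_, ⟨x, hx, rfl⟩, hxW⟩ hcl
  have key : ∀ (a b : ↥(Sᶜ)), (G.induce Sᶜ).Reachable a b → a ∈ K.supp → (a : V) ∈ W →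
      (b : V) ∈ W := by
    rintro a b ⟨p⟩
    induction p with
    | nil => intro _ h; exact h
    | @cons a c b hac p ih =>
      intro haK haW
      have hcK : c ∈ K.supp := by
        rw [SimpleGraph.ConnectedComponent.mem_supp_iff] at haK ⊢
        rw [← haK]
        exact (SimpleGraph.ConnectedComponent.connectedComponentMk_eq_of_adj hac).symm
      apply ih hcK
      exact hcl _ ⟨a, haK, rfl⟩ haW _ ⟨c, hcK, rfl⟩ hac
  rintro _ ⟨y, hy, rfl⟩
  apply key x y _ hx hxW
  rw [SimpleGraph.ConnectedComponent.mem_supp_iff] at hx hy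
  exact SimpleGraph.ConnectedComponent.exact (hx.trans hy.symm)

theorem main [Fintype V] (G : SimpleGraph V) (h : TwinWidthLE G 3) :
    ∃ X : Finset V, X.card ≤ 22 ∧ IsBalancedSeparator G (closedNbhd G X) := by
  classical
  by_cases hV : Nonempty V
  · obtain ⟨f, hself, heq, hdom, hnp⟩ := exists_classes h
    by_contra hcon
    push Not at hcon
    apply hnp
    choose r hr using hdom
    -- dominators of blocks
    have hblock : ∀ F : Finset V, ∃ x : V, ∀ v, f v = F → ∀ y ∈ F, y = x ∨ G.Adj x y := by
      intro F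
      by_cases hF : ∃ v, f v = F
      · obtain ⟨v, rfl⟩ := hF
        exact ⟨r v, fun _ _ y hy => hr v y hy⟩
      · push Not at hF
        exact ⟨Classical.choice hV, fun v hv => absurd hv (hF v)⟩
    choose ρ hρ using hblock
    have hdata : ∀ S : Finset (Finset V), ∃ (B : Set (Finset V)) (K : Set V), S.card ≤ 22 →
        Conn (quot G f) B ∧ (∀ x ∈ B, x ∉ S) ∧
        (∀ x ∈ B, ∀ y, (quot G f).Adj x y → y ∈ B ∪ (↑S : Set (Finset V))) ∧
        (∀ v ∈ K, f v ∈ B) ∧ Fintype.card V < 2 * K.ncard := by
      intro S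
      by_cases hS : S.card ≤ 22
      · have hX := hcon (S.image ρ) (Finset.card_image_le.trans hS)
        unfold IsBalancedSeparator at hX
        push Not at hX
        obtain ⟨K, hK⟩ := hX
        have hKconn := conn_component K
        set KV : Set V := Subtype.val '' K.supp with hKV
        have hKcard : KV.ncard = K.supp.ncard := by
          rw [hKV, Set.ncard_image_of_injective _ Subtype.val_injective]
        have hKS : ∀ v ∈ KV, f v ∉ S := by
          rintro _ ⟨v, _, rfl⟩ hfS
          apply v.2
          exact ⟨ρ (f v), Finset.mem_image_of_mem ρ hfS, hρ (f v) v rfl v (hself v)⟩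
        have hKne : KV.Nonempty := by
          rw [← Set.ncard_pos]
          omega
        obtain ⟨v₀, hv₀⟩ := hKne
        have hv₀S : f v₀ ∈ {F : Finset V | F ∉ S} := hKS v₀ hv₀
        refine ⟨comp (quot G f) {F | F ∉ S} (f v₀), KV, fun _ => ⟨conn_comp _ hv₀S, ?_, ?_, ?_, ?_⟩⟩
        · intro x hx
          exact comp_subset _ _ _ hx
        · intro x hx y hxy
          by_cases hyS : y ∈ S
          · exact Or.inr (by simpa using hyS)
          · exact Or.inl (comp_closed _ hx hyS hxy)
        · have := hKconn {v | f v ∈ comp (quot G f) {F | F ∉ S} (f v₀)}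
            ⟨v₀, hv₀, mem_comp_self _ hv₀S⟩ (by
              intro x hx hxW y hy hxy
              by_cases hfxy : f x = f y
              · show f y ∈ comp (quot G f) {F | F ∉ S} (f v₀)
                rw [← hfxy]; exact hxW
              · exact comp_closed _ hxW (hKS y hy) ⟨hfxy, x, y, rfl, rfl, hxy⟩)
          exact fun v hv => this hv
        · rw [hKcard]; exact hK
      · exact ⟨∅, ∅, fun h => absurd h hS⟩
    choose B K hBK using hdata
    have hv : Haven (quot G f) 22 :=
      { β := B
        conn := fun S hS => (hBK S hS).1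
        avoid := fun S hS => (hBK S hS).2.1
        closed := fun S hS => (hBK S hS).2.2.1
        meet := fun S T hS hT => by
          have h1 := (hBK S hS).2.2.2
          have h2 := (hBK T hT).2.2.2
          have hne : (K S ∩ K T).Nonempty := by
            by_contra hemp
            rw [Set.not_nonempty_iff_eq_empty] at hemp
            have h3 : (K S ∪ K T).ncard = (K S).ncard + (K T).ncard :=
              Set.ncard_union_eq (Set.disjoint_iff_inter_eq_empty.2 hemp)
            have h4 : (K S ∪ K T).ncard ≤ Fintype.card V := by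
              rw [← Nat.card_eq_fintype_card, ← Set.ncard_univ]
              exact Set.ncard_le_ncard (Set.subset_univ _)
            have := h1.2
            have := h2.2
            omega
          obtain ⟨v, hv1, hv2⟩ := hne
          exact ⟨f v, h1.1 v hv1, h2.1 v hv2⟩ }
    exact hv.hasPair le_rfl
  · refine ⟨∅, by simp, ?_⟩
    intro K
    have : IsEmpty V := not_nonempty_iff.1 hV
    have hK : K.supp = ∅ := by
      ext x
      exact isEmptyElim (x : V)
    simp [hK]

end TwwSep
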