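import Pool.Agent.TwwSep.Cycle

/-!
# A haven of order 23 contains two disjoint cycles not separated by three vertices
-/

namespace TwwSep

variable {α : Type*} {H : SimpleGraph α} {N : ℕ}

theorem split_count (p : α → Bool) : ∀ (R : List α) (k : ℕ), k ≤ R.countP p →
    ∃ R₁ R₂, R = R₁ ++ R₂ ∧ R₁.countP p = k := by
  intro R
  induction R with
  | nil =>
    intro k hk
    simp only [List.countP_nil, Nat.le_zero] at hk
    exact ⟨[], [], rfl, by simp [hk]⟩
  | cons a R ih =>
    intro k hk
    rcases Nat.eq_zero_or_pos k with rfl | hpos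
    · exact ⟨[], a :: R, rfl, rfl⟩
    · by_cases ha : p a
      · rw [List.countP_cons_of_pos ha] at hk
        obtain ⟨R₁, R₂, e, hc⟩ := ih (k - 1) (by omega)
        refine ⟨a :: R₁, R₂, by rw [e]; rfl, ?_⟩
        rw [List.countP_cons_of_pos ha]
        omega
      · rw [List.countP_cons_of_neg ha] at hk
        obtain ⟨R₁, R₂, e, hc⟩ := ih k hk
        refine ⟨a :: R₁, R₂, by rw [e]; rfl, ?_⟩
        rw [List.countP_cons_of_neg ha]
        exact hc

open Classical in
theorem card_filter_eq_countP {S : Finset α} {y : α → α}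
    (hinj : ∀ s ∈ S, ∀ s' ∈ S, y s = y s' → s = s') {R : List α} (hR : R.Nodup) :
    (S.filter (fun s => y s ∈ R)).card = R.countP (fun x => decide (∃ s ∈ S, y s = x)) := by
  have h1 : (R.filter (fun x => decide (∃ s ∈ S, y s = x))).toFinset =
      (S.filter (fun s => y s ∈ R)).image y := by
    ext x
    simp only [List.mem_toFinset, List.mem_filter, decide_eq_true_eq, Finset.mem_image,
      Finset.mem_filter]
    constructor
    · rintro ⟨hx, s, hs, rfl⟩
      exact ⟨s, ⟨hs, hx⟩, rfl⟩
    · rintro ⟨s, ⟨hs, hx⟩, rfl⟩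
      exact ⟨hx, s, hs, rfl⟩
  rw [List.countP_eq_length_filter, ← List.toFinset_card_of_nodup (hR.filter _), h1,
    Finset.card_image_of_injOn]
  intro s hs s' hs' hss
  simp only [Finset.coe_filter, Set.mem_ofPred_eq] at hs hs'
  exact hinj s hs.1 s' hs'.1 hss

/-- Subsets of an attached set of 12 vertices with at least four elements. -/
theorem Haven.att_four (hv : Haven H N) (hN : 12 ≤ N) {S A T : Finset α} (hS : S.card = 12)
    (hatt : hv.Att ↑S 12) (hA : A ⊆ S) (hA4 : 4 ≤ A.card) (hT : T.card ≤ 3) :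
    ((↑A : Set α) ∩ hv.β T).Nonempty := by
  classical
  have hc : (T ∪ (S \ A)).card < 12 := by
    have h1 := Finset.card_union_le T (S \ A)
    have h2 := Finset.card_sdiff_of_subset hA
    omega
  obtain ⟨x, hxS, hx⟩ := hatt _ hc
  have hx' := hv.avoid _ (by omega) x hx
  refine ⟨x, ?_, hv.mono (by omega) Finset.subset_union_left hx⟩
  by_contra hxA
  apply hx'
  exact Finset.mem_union_right _ (Finset.mem_sdiff.2 ⟨by simpa using hxS, by simpa using hxA⟩)

/-- The linkage through `β S`. -/
theorem Haven.link_through [Finite α] (hv : Haven H N) {S Y Z : Finset α} {k : ℕ}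
    (hSN : S.card + k ≤ N) (hatt : hv.Att ↑S S.card) (hY : Y ⊆ S) (hZ : Z ⊆ S)
    (hcov : ∀ s ∈ S, s ∈ Y ∨ s ∈ Z) (hYk : Y.card = k) (hZk : Z.card = k)
    (hYZ : Disjoint Y Z) (hk : 1 ≤ k) :
    ∃ (F : α → Set α) (π : α → α), (∀ z ∈ Z, Conn H (F z) ∧ z ∈ F z ∧ π z ∈ F z ∧ π z ∈ Y ∧
      (∀ x ∈ F z, x ∈ hv.β S ∨ x = z ∨ x = π z)) ∧
      (∀ z ∈ Z, ∀ z' ∈ Z, z ≠ z' → Disjoint (F z) (F z')) := by
  classical
  have hSN' : S.card ≤ N := by omega
  let HC : SimpleGraph α :=
    { Adj := fun x y => H.Adj x y ∧ (x ∈ hv.β S ∨ y ∈ hv.β S)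
      symm := ⟨fun x y hxy => ⟨hxy.1.symm, hxy.2.symm⟩⟩
      loopless := ⟨fun x hx => H.loopless.irrefl x hx.1⟩ }
  have hle : HC ≤ H := fun x y hxy => hxy.1
  have hL : Linked HC ↑Y ↑Z k := by
    apply menger
    rintro T ⟨U, hU1, hU2, hU3, hU4⟩
    by_contra hlt
    push Not at hlt
    have hSTN : (S ∪ T).card ≤ N := by
      have := Finset.card_union_le S T
      omega
    set NE := (S ∪ T).filter (fun v => ∃ e ∈ hv.β (S ∪ T), H.Adj e v) with hNE
    have hβNE : hv.β NE = hv.β (S ∪ T) := by
      apply hv.β_nbhd hSTN (Finset.filter_subset _ _)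
      intro v hv1 hv2
      exact Finset.mem_filter.2 ⟨hv1, hv2⟩
    have hsubS : hv.β (S ∪ T) ⊆ hv.β S := hv.mono hSTN Finset.subset_union_left
    -- the component lies inside or outside `U`
    have hEconn : Conn HC (hv.β (S ∪ T)) := by
      intro W hW hcl
      apply hv.conn _ hSTN W hW
      intro x hx hxW y hy hxy
      exact hcl x hx hxW y hy ⟨hxy, Or.inl (hsubS hx)⟩
    have hET : ∀ x ∈ hv.β (S ∪ T), x ∉ (↑T : Set α) := by
      intro x hx hxT
      exact hv.avoid _ hSTN x hx (Finset.mem_union_right _ (by simpa using hxT))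
    have hES : ∀ x ∈ hv.β (S ∪ T), x ∉ S := by
      intro x hx hxS
      exact hv.avoid _ hSTN x hx (Finset.mem_union_left _ hxS)
    have hsmall : NE.card < S.card := by
      by_cases hin : ∃ x ∈ hv.β (S ∪ T), x ∈ U
      · -- then `NE` avoids `Z \ T`
        have hEU := hEconn.subset_of_closed hET hU4 hin
        have hsub : NE ⊆ (S \ Z) ∪ T := by
          intro v hvNE
          obtain ⟨hv1, e, he, hev⟩ := Finset.mem_filter.1 hvNE
          by_cases hvT : v ∈ T
          · exact Finset.mem_union_right _ hvT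
          · have hvS : v ∈ S := (Finset.mem_union.1 hv1).resolve_right hvT
            refine Finset.mem_union_left _ (Finset.mem_sdiff.2 ⟨hvS, fun hvZ => ?_⟩)
            rcases hU4 e (hEU he) v ⟨hev, Or.inl (hsubS he)⟩ with h | h
            · exact Set.disjoint_left.1 hU3 h (by simpa using hvZ)
            · exact hvT (by simpa using h)
        have h1 := Finset.card_le_card hsub
        have h2 := Finset.card_union_le (S \ Z) T
        have h3 := Finset.card_sdiff_of_subset hZ
        have h4 := Finset.card_le_card hZ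
        omega
      · push Not at hin
        have hsub : NE ⊆ (S \ Y) ∪ T := by
          intro v hvNE
          obtain ⟨hv1, e, he, hev⟩ := Finset.mem_filter.1 hvNE
          by_cases hvT : v ∈ T
          · exact Finset.mem_union_right _ hvT
          · have hvS : v ∈ S := (Finset.mem_union.1 hv1).resolve_right hvT
            refine Finset.mem_union_left _ (Finset.mem_sdiff.2 ⟨hvS, fun hvY => ?_⟩)
            have hvU : v ∈ U := by
              rcases hU1 (show v ∈ (↑Y : Set α) by simpa using hvY) with h | h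
              · exact h
              · exact absurd (by simpa using h) hvT
            rcases hU4 v hvU e ⟨hev.symm, Or.inr (hsubS he)⟩ with h | h
            · exact hin e he h
            · exact hET e he h
        have h1 := Finset.card_le_card hsub
        have h2 := Finset.card_union_le (S \ Y) T
        have h3 := Finset.card_sdiff_of_subset hY
        have h4 := Finset.card_le_card hY
        omega
    obtain ⟨x, hxS, hx⟩ := hatt NE hsmall
    rw [hβNE] at hx
    exact hES x hx (by simpa using hxS)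
  obtain ⟨F, hF1, hF2, hF3⟩ := hL.full hZk
  have hch : ∀ z, ∃ y, z ∈ Z → y ∈ F z ∧ y ∈ Y := by
    intro z
    by_cases hz : z ∈ Z
    · obtain ⟨y, hy1, hy2⟩ := (hF1 z hz).2.2
      exact ⟨y, fun _ => ⟨hy1, by simpa using hy2⟩⟩
    · exact ⟨z, fun h => absurd h hz⟩
  choose π hπ using hch
  have hinj : Set.InjOn π ↑Z := by
    intro z hz z' hz' hzz
    by_contra hne
    have := Set.disjoint_left.1 (hF3 z hz z' hz' hne) (hπ z hz).1
    rw [hzz] at this
    exact this (hπ z' hz').1
  have himg : Z.image π = Y := by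
    apply Finset.eq_of_subset_of_card_le
    · intro y hy
      obtain ⟨z, hz, rfl⟩ := Finset.mem_image.1 hy
      exact (hπ z hz).2
    · rw [Finset.card_image_of_injOn hinj, hYk, hZk]
  refine ⟨F, π, ?_, hF3⟩
  intro z hz
  refine ⟨(hF1 z hz).2.1.mono hle, (hF1 z hz).1, (hπ z hz).1, (hπ z hz).2, ?_⟩
  have hsub : F z ⊆ hv.β S ∪ ↑S := by
    apply (hF1 z hz).2.1 _ ⟨z, (hF1 z hz).1, Or.inr (by simpa using hZ hz)⟩
    intro x _ _ y _ hxy
    by_cases hy : y ∈ hv.β S
    · exact Or.inl hy
    · have hx : x ∈ hv.β S := hxy.2.resolve_right hy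
      exact hv.closed S hSN' x hx y hxy.1
  intro x hx
  rcases hsub hx with h | h
  · exact Or.inl h
  · right
    have hxS : x ∈ S := by simpa using h
    by_cases hxZ : x ∈ Z
    · exact Or.inl (hF2 z hz x hxZ hx)
    · right
      have hxY : x ∈ Y := (hcov x hxS).resolve_right hxZ
      rw [← himg] at hxY
      obtain ⟨z', hz', rfl⟩ := Finset.mem_image.1 hxY
      by_cases hzz : z = z'
      · rw [hzz]
      · exact absurd (hπ z' hz').1 (Set.disjoint_left.1 (hF3 z hz z' hz' hzz) hx)

end TwwSep
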