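import Pool.Agent.TwwSep.Menger

/-!
# Cycles as sets with a 2-regular connected relation, and their persistence under identification
-/

namespace TwwSep

variable {α α' : Type*}

/-- `Z` is the vertex set of a cycle of `H` whose edge relation is `E`. -/
structure IsRing (H : SimpleGraph α) (Z : Set α) (E : α → α → Prop) : Prop where
  ne : Z.Nonempty
  symm : ∀ x y, E x y → E y x
  adj : ∀ x y, E x y → H.Adj x y
  mem : ∀ x y, E x y → x ∈ Z
  deg : ∀ x ∈ Z, ∃ a b, a ≠ b ∧ E x a ∧ E x b ∧ ∀ c, E x c → c = a ∨ c = b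
  conn : ∀ W : Set α, W ⊆ Z → W.Nonempty → (∀ x ∈ W, ∀ y, E x y → y ∈ W) → W = Z

/-- Two disjoint cycles that cannot be separated by three vertices. -/
def HasPair (H : SimpleGraph α) : Prop :=
  ∃ (Z₁ : Set α) (E₁ : α → α → Prop) (Z₂ : Set α) (E₂ : α → α → Prop),
    IsRing H Z₁ E₁ ∧ IsRing H Z₂ E₂ ∧ Disjoint Z₁ Z₂ ∧
      ∀ T : Finset α, T.card ≤ 3 → ¬ Sep H Z₁ Z₂ ↑T

/-- `H'` arises from `H` by identifying `u` and `v` (via `q`); the new vertex `w` has all its
neighbours in the set `N` of at most three vertices. -/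
structure IsIdent (H : SimpleGraph α) (H' : SimpleGraph α') (q : α → α') (u v : α) (w : α')
    (N : Finset α') : Prop where
  ne : u ≠ v
  qu : q u = w
  qv : q v = w
  inj : ∀ x y, q x = q y → x = y ∨ (x = u ∧ y = v) ∨ (x = v ∧ y = u)
  adj : ∀ x y, H.Adj x y → q x = q y ∨ H'.Adj (q x) (q y)
  lift : ∀ a b, H'.Adj a b → ∃ x y, q x = a ∧ q y = b ∧ H.Adj x y
  nbr : ∀ b, H'.Adj w b → b ∈ N
  card : N.card ≤ 3

namespace IsIdent

variable {H : SimpleGraph α} {H' : SimpleGraph α'} {q : α → α'} {u v : α} {w : α'}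
  {N : Finset α'}

theorem swap (h : IsIdent H H' q u v w N) : IsIdent H H' q v u w N where
  ne := h.ne.symm
  qu := h.qv
  qv := h.qu
  inj := fun x y hxy => by
    rcases h.inj x y hxy with h1 | h1 | h1
    · exact Or.inl h1
    · exact Or.inr (Or.inr h1)
    · exact Or.inr (Or.inl h1)
  adj := h.adj
  lift := h.lift
  nbr := h.nbr
  card := h.card

theorem eq_of_eq (h : IsIdent H H' q u v w N) {x y : α} (hx1 : x ≠ u) (hx2 : x ≠ v)
    (hxy : q x = q y) : x = y := by
  rcases h.inj x y hxy with h1 | h1 | h1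
  · exact h1
  · exact absurd h1.1 hx1
  · exact absurd h1.1 hx2

theorem q_ne_w (h : IsIdent H H' q u v w N) {x : α} (hx1 : x ≠ u) (hx2 : x ≠ v) : q x ≠ w := by
  intro hxw
  rw [← h.qu] at hxw
  exact hx1 (h.eq_of_eq hx1 hx2 hxw)

theorem eq_uv (h : IsIdent H H' q u v w N) {x : α} (hx : q x = w) : x = u ∨ x = v := by
  by_contra hcon
  push Not at hcon
  exact h.q_ne_w hcon.1 hcon.2 hx

/-- Neighbours of `u` (other than `v`) are mapped into `N`. -/
theorem nbr_u (h : IsIdent H H' q u v w N) {x : α} (hx : H.Adj u x) (hxv : x ≠ v) : q x ∈ N := by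
  have hxu : x ≠ u := fun e => by subst e; exact H.loopless.irrefl _ hx
  apply h.nbr
  rcases h.adj u x hx with h1 | h1
  · exact absurd (h1.symm.trans h.qu) (h.q_ne_w hxu hxv)
  · rwa [h.qu] at h1

theorem nbr_v (h : IsIdent H H' q u v w N) {x : α} (hx : H.Adj v x) (hxu : x ≠ u) : q x ∈ N :=
  h.swap.nbr_u hx hxu

open Classical in
/-- Preimage of a finite set avoiding `w`. -/
theorem card_preimage_le [Finite α] (h : IsIdent H H' q u v w N) (M : Finset α') (hw : w ∉ M) :
    ∃ T : Finset α, (∀ x, x ∈ T ↔ q x ∈ M) ∧ T.card ≤ M.card := by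
  have hfin : {x | q x ∈ M}.Finite := Set.toFinite _
  refine ⟨hfin.toFinset, fun x => by simp, ?_⟩
  apply Finset.card_le_card_of_injOn q
  · intro x hx
    simpa using hx
  · intro x hx y _ hxy
    have hx' : q x ∈ M := by simpa using hx
    apply h.eq_of_eq _ _ hxy
    · rintro rfl
      exact hw (h.qu ▸ hx')
    · rintro rfl
      exact hw (h.qv ▸ hx')

set_option maxHeartbeats 4000000 in
/-- Transfer of separators of order three. -/
theorem sep_transfer [Finite α] (h : IsIdent H H' q u v w N) {Z₁ Z₂ : Set α} {Z₁' Z₂' : Set α'}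
    (h1 : ∀ z ∈ Z₁, q z ∈ Z₁' ∨ (w ∈ Z₁' ∧ H.Adj u z ∧ z ≠ v))
    (h2 : ∀ z ∈ Z₂, q z ∈ Z₂') (hd : Disjoint Z₁' Z₂')
    (h3 : w ∈ Z₁' → ∃ p ∈ N, ∃ r ∈ N, p ≠ r ∧ p ∈ Z₁' ∧ r ∈ Z₁')
    (h4 : w ∈ Z₂' → ∃ p ∈ N, ∃ r ∈ N, p ≠ r ∧ p ∈ Z₂' ∧ r ∈ Z₂')
    {T' : Finset α'} (hT' : T'.card ≤ 3) (hS : Sep H' Z₁' Z₂' ↑T') :
    ∃ T : Finset α, T.card ≤ 3 ∧ Sep H Z₁ Z₂ ↑T := by
  classical
  obtain ⟨U', hU1, hU2, hU3, hU4⟩ := hS
  by_cases hw : w ∈ T'
  · -- the new vertex is in the separator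
    have hwU : w ∉ U' := fun hwU => Set.disjoint_left.1 hU2 hwU (by simpa using hw)
    obtain ⟨T₀, hT₀, hT₀c⟩ := h.card_preimage_le (T'.erase w) (by simp)
    have hT₀2 : T₀.card ≤ 2 := by
      have := Finset.card_erase_of_mem hw
      omega
    -- case A: at most one neighbour of `w` on the far side
    have caseA : ((N.filter (fun b => b ∉ U' ∧ b ∉ T')).card ≤ 1) → w ∉ Z₂' →
        ∃ T : Finset α, T.card ≤ 3 ∧ Sep H Z₁ Z₂ ↑T := by
      intro hNO hwZ2
      obtain ⟨T₁, hT₁, hT₁c⟩ := h.card_preimage_le (N.filter (fun b => b ∉ U' ∧ b ∉ T'))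
        (by simp [hw])
      refine ⟨T₀ ∪ T₁, ?_, {x | q x ∈ U' ∨ x = u ∨ x = v}, ?_, ?_, ?_, ?_⟩
      · have := Finset.card_union_le T₀ T₁
        omega
      · intro z hz
        simp only [Finset.coe_union, Set.mem_union, Finset.mem_coe, Set.mem_ofPred_eq, hT₀, hT₁,
          Finset.mem_erase, Finset.mem_filter]
        by_cases hzu : z = u
        · tauto
        by_cases hzv : z = v
        · tauto
        have hqz : q z ≠ w := h.q_ne_w hzu hzv
        rcases h1 z hz with g | ⟨_, g, g'⟩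
        · have := hU1 g
          simp only [Set.mem_union, Finset.mem_coe] at this
          tauto
        · have := h.nbr_u g g'
          tauto
      · rw [Set.disjoint_left]
        intro z hz hz'
        simp only [Finset.coe_union, Set.mem_union, Finset.mem_coe, Set.mem_ofPred_eq, hT₀, hT₁,
          Finset.mem_erase, Finset.mem_filter] at hz hz'
        rcases hz with hz | rfl | rfl
        · rcases hz' with g | g
          · exact Set.disjoint_left.1 hU2 hz (by simpa using g.2)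
          · exact g.2.1 hz
        · rw [h.qu] at hz'
          tauto
        · rw [h.qv] at hz'
          tauto
      · rw [Set.disjoint_left]
        intro z hz hz'
        simp only [Set.mem_ofPred_eq] at hz
        have := h2 z hz'
        rcases hz with hz | rfl | rfl
        · exact Set.disjoint_left.1 hU3 hz this
        · rw [h.qu] at this; exact hwZ2 this
        · rw [h.qv] at this; exact hwZ2 this
      · intro z hz z' hzz'
        simp only [Finset.coe_union, Set.mem_union, Finset.mem_coe, Set.mem_ofPred_eq, hT₀, hT₁,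
          Finset.mem_erase, Finset.mem_filter] at hz ⊢
        by_cases hz'u : z' = u
        · tauto
        by_cases hz'v : z' = v
        · tauto
        have hqz' : q z' ≠ w := h.q_ne_w hz'u hz'v
        rcases hz with hz | rfl | rfl
        · rcases h.adj z z' hzz' with g | g
          · rw [← g]; tauto
          · have := hU4 _ hz _ g
            simp only [Set.mem_union, Finset.mem_coe] at this
            tauto
        · have := h.nbr_u hzz' hz'v
          tauto
        · have := h.nbr_v hzz' hz'u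
          tauto
    have caseB : ((N.filter (fun b => b ∈ U')).card ≤ 1) → w ∉ Z₁' →
        ∃ T : Finset α, T.card ≤ 3 ∧ Sep H Z₁ Z₂ ↑T := by
      intro hNU hwZ1
      obtain ⟨T₁, hT₁, hT₁c⟩ := h.card_preimage_le (N.filter (fun b => b ∈ U'))
        (by simp [hwU])
      refine ⟨T₀ ∪ T₁, ?_, {x | q x ∈ U' ∧ q x ∉ N}, ?_, ?_, ?_, ?_⟩
      · have := Finset.card_union_le T₀ T₁
        omega
      · intro z hz
        simp only [Finset.coe_union, Set.mem_union, Finset.mem_coe, Set.mem_ofPred_eq, hT₀, hT₁,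
          Finset.mem_erase, Finset.mem_filter]
        rcases h1 z hz with g | ⟨g, _⟩
        · have hqz : q z ≠ w := fun e => hwZ1 (e ▸ g)
          have := hU1 g
          simp only [Set.mem_union, Finset.mem_coe] at this
          tauto
        · exact absurd g hwZ1
      · rw [Set.disjoint_left]
        intro z hz hz'
        simp only [Finset.coe_union, Set.mem_union, Finset.mem_coe, Set.mem_ofPred_eq, hT₀, hT₁,
          Finset.mem_erase, Finset.mem_filter] at hz hz'
        rcases hz' with g | g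
        · exact Set.disjoint_left.1 hU2 hz.1 (by simpa using g.2)
        · exact hz.2 g.1
      · rw [Set.disjoint_left]
        intro z hz hz'
        exact Set.disjoint_left.1 hU3 hz.1 (h2 z hz')
      · intro z hz z' hzz'
        simp only [Finset.coe_union, Set.mem_union, Finset.mem_coe, Set.mem_ofPred_eq, hT₀, hT₁,
          Finset.mem_erase, Finset.mem_filter] at hz ⊢
        rcases h.adj z z' hzz' with g | g
        · rw [← g]; tauto
        · have h5 := hU4 _ hz.1 _ g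
          simp only [Set.mem_union, Finset.mem_coe] at h5
          have h6 : q z' ≠ w := by
            intro e
            apply hz.2
            apply h.nbr
            rw [← e]
            exact g.symm
          by_cases h7 : q z' ∈ N <;> tauto
    have hcardN := h.card
    by_cases hwZ1 : w ∈ Z₁'
    · obtain ⟨p, hp, r, hr, hpr, hpZ, hrZ⟩ := h3 hwZ1
      apply caseA _ (fun hwZ2 => Set.disjoint_left.1 hd hwZ1 hwZ2)
      have hsub : N.filter (fun b => b ∉ U' ∧ b ∉ T') ⊆ (N.erase p).erase r := by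
        intro b hb
        simp only [Finset.mem_filter] at hb
        simp only [Finset.mem_erase]
        have hpU := hU1 hpZ
        have hrU := hU1 hrZ
        simp only [Set.mem_union, Finset.mem_coe] at hpU hrU
        refine ⟨?_, ?_, hb.1⟩
        · rintro rfl; tauto
        · rintro rfl; tauto
      have := Finset.card_le_card hsub
      rw [Finset.card_erase_of_mem (by simp [hr, hpr.symm]), Finset.card_erase_of_mem hp] at this
      omega
    · by_cases hwZ2 : w ∈ Z₂'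
      · obtain ⟨p, hp, r, hr, hpr, hpZ, hrZ⟩ := h4 hwZ2
        apply caseB _ hwZ1
        have hsub : N.filter (fun b => b ∈ U') ⊆ (N.erase p).erase r := by
          intro b hb
          simp only [Finset.mem_filter] at hb
          simp only [Finset.mem_erase]
          refine ⟨?_, ?_, hb.1⟩
          · rintro rfl; exact Set.disjoint_left.1 hU3 hb.2 hrZ
          · rintro rfl; exact Set.disjoint_left.1 hU3 hb.2 hpZ
        have := Finset.card_le_card hsub
        rw [Finset.card_erase_of_mem (by simp [hr, hpr.symm]), Finset.card_erase_of_mem hp] at this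
        omega
      · by_cases hA : (N.filter (fun b => b ∉ U' ∧ b ∉ T')).card ≤ 1
        · exact caseA hA hwZ2
        · apply caseB _ hwZ1
          have hdis : Disjoint (N.filter (fun b => b ∉ U' ∧ b ∉ T')) (N.filter (fun b => b ∈ U')) := by
            rw [Finset.disjoint_left]
            intro b hb hb'
            simp only [Finset.mem_filter] at hb hb'
            exact hb.2.1 hb'.2
          have hsub : N.filter (fun b => b ∉ U' ∧ b ∉ T') ∪ N.filter (fun b => b ∈ U') ⊆ N := by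
            intro b hb
            simp only [Finset.mem_union, Finset.mem_filter] at hb
            tauto
          have := Finset.card_le_card hsub
          rw [Finset.card_union_of_disjoint hdis] at this
          omega
  · -- the new vertex is not in the separator
    obtain ⟨T, hT, hTc⟩ := h.card_preimage_le T' hw
    refine ⟨T, by omega, {x | q x ∈ U'}, ?_, ?_, ?_, ?_⟩
    · intro z hz
      simp only [Set.mem_union, Finset.mem_coe, Set.mem_ofPred_eq, hT]
      rcases h1 z hz with g | ⟨g1, g2, g3⟩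
      · have := hU1 g
        simpa using this
      · have hwU : w ∈ U' := by
          have := hU1 g1
          simp only [Set.mem_union, Finset.mem_coe] at this
          tauto
        rcases h.adj u z g2 with g | g
        · rw [h.qu] at g
          rw [← g]; exact Or.inl hwU
        · rw [h.qu] at g
          have := hU4 _ hwU _ g
          simpa using this
    · rw [Set.disjoint_left]
      intro z hz hz'
      simp only [Finset.mem_coe, Set.mem_ofPred_eq, hT] at hz hz'
      exact Set.disjoint_left.1 hU2 hz (by simpa using hz')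
    · rw [Set.disjoint_left]
      intro z hz hz'
      exact Set.disjoint_left.1 hU3 hz (h2 z hz')
    · intro z hz z' hzz'
      simp only [Set.mem_union, Finset.mem_coe, Set.mem_ofPred_eq, hT] at hz ⊢
      rcases h.adj z z' hzz' with g | g
      · rw [← g]; exact Or.inl hz
      · have := hU4 _ hz _ g
        simpa using this

/-- The image of a cycle containing at most one of `u`, `v`. -/
theorem ring_image (h : IsIdent H H' q u v w N) {Z : Set α} {E : α → α → Prop}
    (hZ : IsRing H Z E) (huv : ¬ (u ∈ Z ∧ v ∈ Z)) :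
    (∃ E', IsRing H' (q '' Z) E') ∧
      (w ∈ q '' Z → ∃ p ∈ N, ∃ r ∈ N, p ≠ r ∧ p ∈ q '' Z ∧ r ∈ q '' Z) := by
  have hinj : ∀ x ∈ Z, ∀ y ∈ Z, q x = q y → x = y := by
    intro x hx y hy hxy
    rcases h.inj x y hxy with g | ⟨rfl, rfl⟩ | ⟨rfl, rfl⟩
    · exact g
    · exact absurd ⟨hx, hy⟩ huv
    · exact absurd ⟨hy, hx⟩ huv
  have hmem2 : ∀ x y, E x y → y ∈ Z := fun x y hxy => hZ.mem y x (hZ.symm x y hxy)
  constructor
  · refine ⟨fun a b => ∃ x y, q x = a ∧ q y = b ∧ E x y, ?_⟩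
    refine ⟨hZ.ne.image q, ?_, ?_, ?_, ?_, ?_⟩
    · rintro a b ⟨x, y, hx, hy, hxy⟩
      exact ⟨y, x, hy, hx, hZ.symm x y hxy⟩
    · rintro a b ⟨x, y, rfl, rfl, hxy⟩
      rcases h.adj x y (hZ.adj x y hxy) with g | g
      · have := hinj x (hZ.mem x y hxy) y (hmem2 x y hxy) g
        subst this
        exact absurd (hZ.adj x x hxy) (H.loopless.irrefl x)
      · exact g
    · rintro a b ⟨x, y, rfl, rfl, hxy⟩
      exact ⟨x, hZ.mem x y hxy, rfl⟩
    · rintro _ ⟨x, hx, rfl⟩
      obtain ⟨a, b, hab, ha, hb, hc⟩ := hZ.deg x hx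
      refine ⟨q a, q b, fun e => hab (hinj a (hmem2 x a ha) b (hmem2 x b hb) e), ⟨x, a, rfl, rfl, ha⟩,
        ⟨x, b, rfl, rfl, hb⟩, ?_⟩
      rintro _ ⟨x', c, hx', rfl, hxc⟩
      have := hinj x' (hZ.mem x' c hxc) x hx hx'
      subst this
      rcases hc c hxc with rfl | rfl
      · exact Or.inl rfl
      · exact Or.inr rfl
    · intro W hW ⟨a, haW⟩ hcl
      obtain ⟨x, hx, rfl⟩ := hW haW
      have := hZ.conn {y | y ∈ Z ∧ q y ∈ W} (fun y hy => hy.1) ⟨x, hx, haW⟩ (by
        rintro y ⟨hy, hyW⟩ z hyz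
        exact ⟨hmem2 y z hyz, hcl _ hyW _ ⟨y, z, rfl, rfl, hyz⟩⟩)
      apply Set.Subset.antisymm hW
      rintro _ ⟨y, hy, rfl⟩
      rw [← this] at hy
      exact hy.2
  · rintro ⟨x, hx, hxw⟩
    obtain ⟨a, b, hab, ha, hb, _⟩ := hZ.deg x hx
    refine ⟨q a, ?_, q b, ?_, fun e => hab (hinj a (hmem2 x a ha) b (hmem2 x b hb) e),
      ⟨a, hmem2 x a ha, rfl⟩, ⟨b, hmem2 x b hb, rfl⟩⟩
    · rcases h.eq_uv hxw with rfl | rfl
      · exact h.nbr_u (hZ.adj _ _ ha) (fun e => huv ⟨hx, e ▸ hmem2 _ _ ha⟩)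
      · exact h.nbr_v (hZ.adj _ _ ha) (fun e => huv ⟨e ▸ hmem2 _ _ ha, hx⟩)
    · rcases h.eq_uv hxw with rfl | rfl
      · exact h.nbr_u (hZ.adj _ _ hb) (fun e => huv ⟨hx, e ▸ hmem2 _ _ hb⟩)
      · exact h.nbr_v (hZ.adj _ _ hb) (fun e => huv ⟨e ▸ hmem2 _ _ hb, hx⟩)

/-- The image of a cycle containing both `u` and `v`, after dropping the set `X`. -/
theorem ring_merge (h : IsIdent H H' q u v w N) {Z X : Set α} {E : α → α → Prop}
    (hZ : IsRing H Z E) (hu : u ∈ Z) (hv : v ∈ Z) (huX : u ∉ X) (hvX : v ∉ X)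
    (hX1 : ∀ x ∈ X, ∀ z, E x z → z = u ∨ z = v) {a b : α} (hab : a ≠ b)
    (hua : E u a) (hvb : E v b) (haX : a ∉ X) (hbX : b ∉ X) (hav : a ≠ v) (hbu : b ≠ u)
    (hu' : ∀ z, E u z → z = a ∨ z = v ∨ z ∈ X) (hv' : ∀ z, E v z → z = b ∨ z = u ∨ z ∈ X) :
    ∃ E', IsRing H' (q '' (Z \ X)) E' := by
  have hmem2 : ∀ x y, E x y → y ∈ Z := fun x y hxy => hZ.mem y x (hZ.symm x y hxy)
  have hirr : ∀ x y, E x y → x ≠ y := by
    intro x y hxy e
    subst e
    exact H.loopless.irrefl x (hZ.adj x x hxy)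
  have hau : a ≠ u := (hirr u a hua).symm
  have hbv : b ≠ v := (hirr v b hvb).symm
  refine ⟨fun s t => s ≠ t ∧ ∃ x y, x ∉ X ∧ y ∉ X ∧ q x = s ∧ q y = t ∧ E x y, ?_⟩
  refine ⟨⟨q u, u, ⟨hu, huX⟩, rfl⟩, ?_, ?_, ?_, ?_, ?_⟩
  · rintro s t ⟨hst, x, y, hx, hy, hxs, hyt, hxy⟩
    exact ⟨hst.symm, y, x, hy, hx, hyt, hxs, hZ.symm x y hxy⟩
  · rintro s t ⟨hst, x, y, hx, hy, rfl, rfl, hxy⟩
    rcases h.adj x y (hZ.adj x y hxy) with g | g
    · exact absurd g hst
    · exact g
  · rintro s t ⟨hst, x, y, hx, hy, rfl, rfl, hxy⟩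
    exact ⟨x, ⟨hZ.mem x y hxy, hx⟩, rfl⟩
  · rintro _ ⟨x, ⟨hx, hxX⟩, rfl⟩
    by_cases hxuv : x = u ∨ x = v
    · have hqx : q x = w := by
        rcases hxuv with rfl | rfl
        · exact h.qu
        · exact h.qv
      rw [hqx]
      refine ⟨q a, q b, ?_, ?_, ?_, ?_⟩
      · intro e
        exact hab (h.eq_of_eq hau hav e)
      · exact ⟨(h.q_ne_w hau hav).symm, u, a, huX, haX, h.qu, rfl, hua⟩
      · exact ⟨(h.q_ne_w hbu hbv).symm, v, b, hvX, hbX, h.qv, rfl, hvb⟩
      · rintro c ⟨hwc, y, z, hy, hz, hqy, rfl, hyz⟩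
        rcases h.eq_uv hqy with rfl | rfl
        · rcases hu' z hyz with rfl | rfl | g
          · exact Or.inl rfl
          · exact absurd h.qv.symm hwc
          · exact absurd g hz
        · rcases hv' z hyz with rfl | rfl | g
          · exact Or.inr rfl
          · exact absurd h.qu.symm hwc
          · exact absurd g hz
    · push Not at hxuv
      obtain ⟨c₁, c₂, hc12, hc₁, hc₂, hc⟩ := hZ.deg x hx
      have hcX : ∀ c, E x c → c ∉ X := by
        intro c hxc hcX
        rcases hX1 c hcX x (hZ.symm x c hxc) with g | g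
        · exact hxuv.1 g
        · exact hxuv.2 g
      have hqne : ∀ c, E x c → q x ≠ q c := by
        intro c hxc e
        have := h.eq_of_eq hxuv.1 hxuv.2 e
        exact hirr x c hxc this
      refine ⟨q c₁, q c₂, ?_, ?_, ?_, ?_⟩
      · intro e
        have hxuE : E x u → x = a := by
          intro g
          rcases hu' x (hZ.symm _ _ g) with g' | g' | g'
          · exact g'
          · exact absurd g' hxuv.2
          · exact absurd g' hxX
        have hxvE : E x v → x = b := by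
          intro g
          rcases hv' x (hZ.symm _ _ g) with g' | g' | g'
          · exact g'
          · exact absurd g' hxuv.1
          · exact absurd g' hxX
        rcases h.inj c₁ c₂ e with g | ⟨rfl, rfl⟩ | ⟨rfl, rfl⟩
        · exact hc12 g
        · exact hab ((hxuE hc₁).symm.trans (hxvE hc₂))
        · exact hab ((hxuE hc₂).symm.trans (hxvE hc₁))
      · exact ⟨hqne c₁ hc₁, x, c₁, hxX, hcX c₁ hc₁, rfl, rfl, hc₁⟩
      · exact ⟨hqne c₂ hc₂, x, c₂, hxX, hcX c₂ hc₂, rfl, rfl, hc₂⟩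
      · rintro c ⟨_, y, z, hy, hz, hqy, rfl, hyz⟩
        have : x = y := h.eq_of_eq hxuv.1 hxuv.2 hqy.symm
        subst this
        rcases hc z hyz with rfl | rfl
        · exact Or.inl rfl
        · exact Or.inr rfl
  · intro W hW ⟨s, hsW⟩ hcl
    obtain ⟨x, ⟨hx, hxX⟩, rfl⟩ := hW hsW
    have := hZ.conn ({y | y ∈ Z ∧ y ∉ X ∧ q y ∈ W} ∪ {y | y ∈ Z ∧ y ∈ X ∧ w ∈ W}) (by
        rintro y (hy | hy)
        · exact hy.1
        · exact hy.1) ⟨x, Or.inl ⟨hx, hxX, hsW⟩⟩ (by
        rintro y (⟨hy, hyX, hyW⟩ | ⟨hy, hyX, hyW⟩) z hyz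
        · by_cases hzX : z ∈ X
          · right
            refine ⟨hmem2 y z hyz, hzX, ?_⟩
            rcases hX1 z hzX y (hZ.symm y z hyz) with rfl | rfl
            · rwa [h.qu] at hyW
            · rwa [h.qv] at hyW
          · left
            refine ⟨hmem2 y z hyz, hzX, ?_⟩
            by_cases hq : q y = q z
            · rwa [← hq]
            · exact hcl _ hyW _ ⟨hq, y, z, hyX, hzX, rfl, rfl, hyz⟩
        · left
          rcases hX1 y hyX z hyz with rfl | rfl
          · exact ⟨hu, huX, by rw [h.qu]; exact hyW⟩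
          · exact ⟨hv, hvX, by rw [h.qv]; exact hyW⟩)
    apply Set.Subset.antisymm hW
    rintro _ ⟨y, ⟨hy, hyX⟩, rfl⟩
    rw [← this] at hy
    rcases hy with hy | hy
    · exact hy.2.2
    · exact absurd hy.2.1 hyX

/-- If the cycle is contained in `{u, v}` and the neighbours, three vertices separate it. -/
theorem sep_of_subset [Finite α] (h : IsIdent H H' q u v w N) {Z Z₂ : Set α}
    (hu2 : u ∉ Z₂) (hv2 : v ∉ Z₂) (hZ : ∀ z ∈ Z, z = u ∨ z = v ∨ (q z ∈ N)) :
    ∃ T : Finset α, T.card ≤ 3 ∧ Sep H Z Z₂ ↑T := by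
  classical
  obtain ⟨T, hT, hTc⟩ := h.card_preimage_le (N.erase w) (by simp)
  have hc : T.card ≤ 3 := by
    have := Finset.card_le_card (Finset.erase_subset w N)
    have := h.card
    omega
  refine ⟨T, hc, {x | x = u ∨ x = v}, ?_, ?_, ?_, ?_⟩
  · intro z hz
    simp only [Set.mem_union, Finset.mem_coe, Set.mem_ofPred_eq, hT, Finset.mem_erase]
    by_cases hzu : z = u
    · tauto
    by_cases hzv : z = v
    · tauto
    have := h.q_ne_w hzu hzv
    have := hZ z hz
    tauto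
  · rw [Set.disjoint_left]
    intro z hz hz'
    simp only [Finset.mem_coe, Set.mem_ofPred_eq, hT, Finset.mem_erase] at hz hz'
    rcases hz with rfl | rfl
    · exact hz'.1 h.qu
    · exact hz'.1 h.qv
  · rw [Set.disjoint_left]
    rintro z (rfl | rfl) hz'
    · exact hu2 hz'
    · exact hv2 hz'
  · intro z hz z' hzz'
    simp only [Set.mem_union, Finset.mem_coe, Set.mem_ofPred_eq, hT, Finset.mem_erase] at hz ⊢
    by_cases hz'u : z' = u
    · tauto
    by_cases hz'v : z' = v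
    · tauto
    have := h.q_ne_w hz'u hz'v
    rcases hz with rfl | rfl
    · have := h.nbr_u hzz' hz'v
      tauto
    · have := h.nbr_v hzz' hz'u
      tauto

/-- The cycle containing both `u` and `v`. -/
theorem ring_both [Finite α] (h : IsIdent H H' q u v w N) {Z Z₂ : Set α} {E : α → α → Prop}
    (hZ : IsRing H Z E) (hu : u ∈ Z) (hv : v ∈ Z) (hu2 : u ∉ Z₂) (hv2 : v ∉ Z₂)
    (hns : ∀ T : Finset α, T.card ≤ 3 → ¬ Sep H Z Z₂ ↑T) :
    ∃ Z' E', IsRing H' Z' E' ∧ Z' ⊆ q '' Z ∧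
      (∀ z ∈ Z, q z ∈ Z' ∨ (w ∈ Z' ∧ H.Adj u z ∧ z ≠ v)) ∧
      (∃ p ∈ N, ∃ r ∈ N, p ≠ r ∧ p ∈ Z' ∧ r ∈ Z') := by
  classical
  have hmem2 : ∀ x y, E x y → y ∈ Z := fun x y hxy => hZ.mem y x (hZ.symm x y hxy)
  have hirr : ∀ x y, E x y → x ≠ y := by
    intro x y hxy e
    subst e
    exact H.loopless.irrefl x (hZ.adj x x hxy)
  -- neighbours of any vertex `x` of the cycle besides a given one
  have other : ∀ x ∈ Z, ∀ c, E x c → ∃ d, d ≠ c ∧ E x d ∧ ∀ z, E x z → z = c ∨ z = d := by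
    intro x hx c hxc
    obtain ⟨a, b, hab, ha, hb, hc⟩ := hZ.deg x hx
    rcases hc c hxc with rfl | rfl
    · exact ⟨b, hab.symm, hb, hc⟩
    · exact ⟨a, hab, ha, fun z hz => (hc z hz).symm⟩
  by_cases hEuv : E u v
  · obtain ⟨a, hav, hua, hu'⟩ := other u hu v hEuv
    obtain ⟨b, hbu, hvb, hv'⟩ := other v hv u (hZ.symm _ _ hEuv)
    by_cases hab : a = b
    · exfalso
      subst hab
      have hau : a ≠ u := (hirr u a hua).symm
      obtain ⟨d, hd1, hd2, hd3⟩ := other a (hmem2 _ _ hua) u (hZ.symm _ _ hua)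
      have hdv : d = v := by
        rcases hd3 v (hZ.symm _ _ hvb) with g | g
        · exact absurd g h.ne.symm
        · exact g.symm
      subst hdv
      have hZeq := hZ.conn {x | x = u ∨ x = d ∨ x = a} (by
        rintro x (rfl | rfl | rfl)
        · exact hu
        · exact hv
        · exact hmem2 _ _ hua) ⟨u, Or.inl rfl⟩ (by
        rintro x (rfl | rfl | rfl) y hxy
        · rcases hu' y hxy with rfl | rfl
          · exact Or.inr (Or.inl rfl)
          · exact Or.inr (Or.inr rfl)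
        · rcases hv' y hxy with rfl | rfl
          · exact Or.inl rfl
          · exact Or.inr (Or.inr rfl)
        · rcases hd3 y hxy with rfl | rfl
          · exact Or.inl rfl
          · exact Or.inr (Or.inl rfl))
      obtain ⟨T, hT, hS⟩ := h.sep_of_subset (Z := Z) hu2 hv2 (by
        intro z hz
        rw [← hZeq] at hz
        rcases hz with rfl | rfl | rfl
        · exact Or.inl rfl
        · exact Or.inr (Or.inl rfl)
        · exact Or.inr (Or.inr (h.nbr_u (hZ.adj _ _ hua) hav)))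
      exact hns T hT hS
    · obtain ⟨E', hE'⟩ := h.ring_merge (X := ∅) hZ hu hv (by simp) (by simp) (by simp) hab hua hvb
        (by simp) (by simp) hav hbu
        (fun z hz => by rcases hu' z hz with g | g <;> tauto)
        (fun z hz => by rcases hv' z hz with g | g <;> tauto)
      refine ⟨q '' (Z \ ∅), E', hE', ?_, ?_, ?_⟩
      · exact Set.image_mono (by simp)
      · intro z hz
        exact Or.inl ⟨z, ⟨hz, by simp⟩, rfl⟩
      · refine ⟨q a, h.nbr_u (hZ.adj _ _ hua) hav, q b, h.nbr_v (hZ.adj _ _ hvb) hbu, ?_,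
          ⟨a, ⟨hmem2 _ _ hua, by simp⟩, rfl⟩, ⟨b, ⟨hmem2 _ _ hvb, by simp⟩, rfl⟩⟩
        intro e
        exact hab (h.eq_of_eq (hirr u a hua).symm hav e)
  · obtain ⟨a₁, a₂, ha12, ha₁, ha₂, ha⟩ := hZ.deg u hu
    obtain ⟨b₁, b₂, hb12, hb₁, hb₂, hb⟩ := hZ.deg v hv
    have neuv : ∀ z, E u z → z ≠ u ∧ z ≠ v := by
      intro z hz
      exact ⟨(hirr u z hz).symm, fun e => hEuv (e ▸ hz)⟩
    have nevu : ∀ z, E v z → z ≠ u ∧ z ≠ v := by
      intro z hz
      exact ⟨fun e => hEuv (hZ.symm _ _ (e ▸ hz)), (hirr v z hz).symm⟩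
    -- a common neighbour on the cycle
    have hcommon : ∃ x, E u x ∧ E v x := by
      by_contra hcon
      push Not at hcon
      have n1 := h.nbr_u (hZ.adj _ _ ha₁) (neuv _ ha₁).2
      have n2 := h.nbr_u (hZ.adj _ _ ha₂) (neuv _ ha₂).2
      have n3 := h.nbr_v (hZ.adj _ _ hb₁) (nevu _ hb₁).1
      have n4 := h.nbr_v (hZ.adj _ _ hb₂) (nevu _ hb₂).1
      have qne : ∀ x y, x ≠ u → x ≠ v → x ≠ y → q x ≠ q y := by
        intro x y h1 h2 h3 e
        exact h3 (h.eq_of_eq h1 h2 e)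
      have e12 : q a₁ ≠ q a₂ := qne _ _ (neuv _ ha₁).1 (neuv _ ha₁).2 ha12
      have e34 : q b₁ ≠ q b₂ := qne _ _ (nevu _ hb₁).1 (nevu _ hb₁).2 hb12
      have e13 : q a₁ ≠ q b₁ := qne _ _ (neuv _ ha₁).1 (neuv _ ha₁).2
        (fun e => hcon a₁ ha₁ (e ▸ hb₁))
      have e14 : q a₁ ≠ q b₂ := qne _ _ (neuv _ ha₁).1 (neuv _ ha₁).2
        (fun e => hcon a₁ ha₁ (e ▸ hb₂))
      have e23 : q a₂ ≠ q b₁ := qne _ _ (neuv _ ha₂).1 (neuv _ ha₂).2
        (fun e => hcon a₂ ha₂ (e ▸ hb₁))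
      have e24 : q a₂ ≠ q b₂ := qne _ _ (neuv _ ha₂).1 (neuv _ ha₂).2
        (fun e => hcon a₂ ha₂ (e ▸ hb₂))
      have hsub : ({q a₁, q a₂, q b₁, q b₂} : Finset α') ⊆ N := by
        intro z hz
        simp only [Finset.mem_insert, Finset.mem_singleton] at hz
        rcases hz with rfl | rfl | rfl | rfl <;> assumption
      have hc := Finset.card_le_card hsub
      rw [Finset.card_insert_of_notMem (by simp [e12, e13, e14]),
        Finset.card_insert_of_notMem (by simp [e23, e24]),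
        Finset.card_insert_of_notMem (by simp [e34]), Finset.card_singleton] at hc
      have := h.card
      omega
    obtain ⟨x, hux, hvx⟩ := hcommon
    obtain ⟨a, hax, hua, hu'⟩ := other u hu x hux
    obtain ⟨b, hbx, hvb, hv'⟩ := other v hv x hvx
    have hxZ : x ∈ Z := hmem2 _ _ hux
    obtain ⟨d, hd1, hd2, hd3⟩ := other x hxZ u (hZ.symm _ _ hux)
    have hdv : d = v := by
      rcases hd3 v (hZ.symm _ _ hvx) with g | g
      · exact absurd g h.ne.symm
      · exact g.symm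
    subst hdv
    by_cases hab : a = b
    · exfalso
      subst hab
      obtain ⟨d', hd1', hd2', hd3'⟩ := other a (hmem2 _ _ hua) u (hZ.symm _ _ hua)
      have hd'v : d' = d := by
        rcases hd3' d (hZ.symm _ _ hvb) with g | g
        · exact absurd g h.ne.symm
        · exact g.symm
      subst hd'v
      have hZeq := hZ.conn {z | z = u ∨ z = d' ∨ z = x ∨ z = a} (by
        rintro z (rfl | rfl | rfl | rfl)
        · exact hu
        · exact hv
        · exact hxZ
        · exact hmem2 _ _ hua) ⟨u, Or.inl rfl⟩ (by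
        rintro z (rfl | rfl | rfl | rfl) y hzy
        · rcases hu' y hzy with rfl | rfl
          · exact Or.inr (Or.inr (Or.inl rfl))
          · exact Or.inr (Or.inr (Or.inr rfl))
        · rcases hv' y hzy with rfl | rfl
          · exact Or.inr (Or.inr (Or.inl rfl))
          · exact Or.inr (Or.inr (Or.inr rfl))
        · rcases hd3 y hzy with rfl | rfl
          · exact Or.inl rfl
          · exact Or.inr (Or.inl rfl)
        · rcases hd3' y hzy with rfl | rfl
          · exact Or.inl rfl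
          · exact Or.inr (Or.inl rfl))
      obtain ⟨T, hT, hS⟩ := h.sep_of_subset (Z := Z) hu2 hv2 (by
        intro z hz
        rw [← hZeq] at hz
        rcases hz with rfl | rfl | rfl | rfl
        · exact Or.inl rfl
        · exact Or.inr (Or.inl rfl)
        · exact Or.inr (Or.inr (h.nbr_u (hZ.adj _ _ hux) (neuv _ hux).2))
        · exact Or.inr (Or.inr (h.nbr_u (hZ.adj _ _ hua) (neuv _ hua).2)))
      exact hns T hT hS
    · have huX : u ≠ x := (neuv x hux).1.symm
      have hvX : d ≠ x := (neuv x hux).2.symm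
      obtain ⟨E', hE'⟩ := h.ring_merge (X := {x}) hZ hu hv (by simpa using huX) (by simpa using hvX)
        (by
          intro y hy z hyz
          rw [Set.mem_singleton_iff] at hy
          subst hy
          exact hd3 z hyz) hab hua hvb
        (by simpa using hax) (by simpa using hbx) (neuv a hua).2 (nevu b hvb).1
        (fun z hz => by
          rcases hu' z hz with g | g
          · exact Or.inr (Or.inr g)
          · exact Or.inl g)
        (fun z hz => by
          rcases hv' z hz with g | g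
          · exact Or.inr (Or.inr g)
          · exact Or.inl g)
      refine ⟨q '' (Z \ {x}), E', hE', ?_, ?_, ?_⟩
      · exact Set.image_mono (fun z hz => hz.1)
      · intro z hz
        by_cases hzx : z = x
        · right
          subst hzx
          exact ⟨⟨u, ⟨hu, huX⟩, h.qu⟩, hZ.adj _ _ hux, (neuv z hux).2⟩
        · exact Or.inl ⟨z, ⟨hz, hzx⟩, rfl⟩
      · refine ⟨q a, h.nbr_u (hZ.adj _ _ hua) (neuv a hua).2, q b,
          h.nbr_v (hZ.adj _ _ hvb) (nevu b hvb).1, ?_,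
          ⟨a, ⟨hmem2 _ _ hua, hax⟩, rfl⟩, ⟨b, ⟨hmem2 _ _ hvb, hbx⟩, rfl⟩⟩
        intro e
        exact hab (h.eq_of_eq (neuv a hua).1 (neuv a hua).2 e)

end IsIdent

/-- Persistence under identification of two vertices to a vertex of degree at most three. -/
theorem HasPair.ident [Finite α] {H : SimpleGraph α} {H' : SimpleGraph α'} {q : α → α'} {u v : α}
    {w : α'} {N : Finset α'} (h : IsIdent H H' q u v w N) (hP : HasPair H) : HasPair H' := by
  classical
  obtain ⟨Z₁, E₁, Z₂, E₂, hZ₁, hZ₂, hd, hns⟩ := hP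
  -- the case that one cycle contains both
  have both : ∀ (Z₁ : Set α) (E₁ : α → α → Prop) (Z₂ : Set α) (E₂ : α → α → Prop),
      IsRing H Z₁ E₁ → IsRing H Z₂ E₂ → Disjoint Z₁ Z₂ →
      (∀ T : Finset α, T.card ≤ 3 → ¬ Sep H Z₁ Z₂ ↑T) → u ∈ Z₁ → v ∈ Z₁ → HasPair H' := by
    intro Z₁ E₁ Z₂ E₂ hZ₁ hZ₂ hd hns hu hv
    have hu2 : u ∉ Z₂ := Set.disjoint_left.1 hd hu
    have hv2 : v ∉ Z₂ := Set.disjoint_left.1 hd hv
    obtain ⟨Z', E', hZ', hsub, hz, hp⟩ := h.ring_both hZ₁ hu hv hu2 hv2 hns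
    obtain ⟨⟨E₂', hE₂'⟩, h4⟩ := h.ring_image hZ₂ (fun g => hu2 g.1)
    have hd' : Disjoint Z' (q '' Z₂) := by
      rw [Set.disjoint_left]
      intro s hs hs'
      obtain ⟨x, hx, rfl⟩ := hsub hs
      obtain ⟨y, hy, hyx⟩ := hs'
      rcases h.inj y x hyx with rfl | ⟨rfl, _⟩ | ⟨rfl, _⟩
      · exact Set.disjoint_left.1 hd hx hy
      · exact hu2 hy
      · exact hv2 hy
    refine ⟨Z', E', q '' Z₂, E₂', hZ', hE₂', hd', ?_⟩
    intro T' hT' hS
    obtain ⟨T, hT, hS'⟩ := h.sep_transfer (Z₁ := Z₁) (Z₂ := Z₂) hz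
      (fun z hz => Set.mem_image_of_mem q hz) hd' (fun _ => hp) h4 hT' hS
    exact hns T hT hS'
  by_cases hb1 : u ∈ Z₁ ∧ v ∈ Z₁
  · exact both Z₁ E₁ Z₂ E₂ hZ₁ hZ₂ hd hns hb1.1 hb1.2
  by_cases hb2 : u ∈ Z₂ ∧ v ∈ Z₂
  · exact both Z₂ E₂ Z₁ E₁ hZ₂ hZ₁ hd.symm (fun T hT hS => hns T hT hS.symm) hb2.1 hb2.2
  -- no cycle contains both; no split
  have nosplit : ∀ (Z₁ : Set α) (E₁ : α → α → Prop) (Z₂ : Set α) (E₂ : α → α → Prop),
      IsRing H Z₁ E₁ → IsRing H Z₂ E₂ → Disjoint Z₁ Z₂ → u ∈ Z₁ → v ∈ Z₂ → False := by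
    intro Z₁ E₁ Z₂ E₂ hZ₁ hZ₂ hd hu hv
    obtain ⟨a₁, a₂, ha12, ha₁, ha₂, _⟩ := hZ₁.deg u hu
    obtain ⟨b₁, b₂, hb12, hb₁, hb₂, _⟩ := hZ₂.deg v hv
    have mem1 : ∀ z, E₁ u z → z ∈ Z₁ := fun z hz => hZ₁.mem _ _ (hZ₁.symm _ _ hz)
    have mem2 : ∀ z, E₂ v z → z ∈ Z₂ := fun z hz => hZ₂.mem _ _ (hZ₂.symm _ _ hz)
    have hu2 : u ∉ Z₂ := Set.disjoint_left.1 hd hu
    have hv1 : v ∉ Z₁ := fun g => Set.disjoint_left.1 hd g hv
    have neuv : ∀ z, E₁ u z → z ≠ u ∧ z ≠ v := by
      intro z hz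
      refine ⟨?_, ?_⟩
      · rintro rfl
        exact H.loopless.irrefl _ (hZ₁.adj _ _ hz)
      · rintro rfl
        exact hv1 (mem1 _ hz)
    have nevu : ∀ z, E₂ v z → z ≠ u ∧ z ≠ v := by
      intro z hz
      refine ⟨?_, ?_⟩
      · rintro rfl
        exact hu2 (mem2 _ hz)
      · rintro rfl
        exact H.loopless.irrefl _ (hZ₂.adj _ _ hz)
    have n1 := h.nbr_u (hZ₁.adj _ _ ha₁) (neuv _ ha₁).2
    have n2 := h.nbr_u (hZ₁.adj _ _ ha₂) (neuv _ ha₂).2
    have n3 := h.nbr_v (hZ₂.adj _ _ hb₁) (nevu _ hb₁).1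
    have n4 := h.nbr_v (hZ₂.adj _ _ hb₂) (nevu _ hb₂).1
    have qne : ∀ x y, x ≠ u → x ≠ v → x ≠ y → q x ≠ q y := by
      intro x y h1 h2 h3 e
      exact h3 (h.eq_of_eq h1 h2 e)
    have cross : ∀ x y, x ∈ Z₁ → y ∈ Z₂ → x ≠ y := by
      rintro x y hx hy rfl
      exact Set.disjoint_left.1 hd hx hy
    have e12 : q a₁ ≠ q a₂ := qne _ _ (neuv _ ha₁).1 (neuv _ ha₁).2 ha12
    have e34 : q b₁ ≠ q b₂ := qne _ _ (nevu _ hb₁).1 (nevu _ hb₁).2 hb12
    have e13 : q a₁ ≠ q b₁ := qne _ _ (neuv _ ha₁).1 (neuv _ ha₁).2 (cross _ _ (mem1 _ ha₁) (mem2 _ hb₁))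
    have e14 : q a₁ ≠ q b₂ := qne _ _ (neuv _ ha₁).1 (neuv _ ha₁).2 (cross _ _ (mem1 _ ha₁) (mem2 _ hb₂))
    have e23 : q a₂ ≠ q b₁ := qne _ _ (neuv _ ha₂).1 (neuv _ ha₂).2 (cross _ _ (mem1 _ ha₂) (mem2 _ hb₁))
    have e24 : q a₂ ≠ q b₂ := qne _ _ (neuv _ ha₂).1 (neuv _ ha₂).2 (cross _ _ (mem1 _ ha₂) (mem2 _ hb₂))
    have hsub : ({q a₁, q a₂, q b₁, q b₂} : Finset α') ⊆ N := by
      intro z hz
      simp only [Finset.mem_insert, Finset.mem_singleton] at hz
      rcases hz with rfl | rfl | rfl | rfl <;> assumption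
    have hc := Finset.card_le_card hsub
    rw [Finset.card_insert_of_notMem (by simp [e12, e13, e14]),
      Finset.card_insert_of_notMem (by simp [e23, e24]),
      Finset.card_insert_of_notMem (by simp [e34]), Finset.card_singleton] at hc
    have := h.card
    omega
  obtain ⟨⟨E₁', hE₁'⟩, h3⟩ := h.ring_image hZ₁ hb1
  obtain ⟨⟨E₂', hE₂'⟩, h4⟩ := h.ring_image hZ₂ hb2
  have hd' : Disjoint (q '' Z₁) (q '' Z₂) := by
    rw [Set.disjoint_left]
    rintro _ ⟨x, hx, rfl⟩ ⟨y, hy, hyx⟩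
    rcases h.inj y x hyx with rfl | ⟨rfl, rfl⟩ | ⟨rfl, rfl⟩
    · exact Set.disjoint_left.1 hd hx hy
    · exact nosplit Z₂ E₂ Z₁ E₁ hZ₂ hZ₁ hd.symm hy hx
    · exact nosplit Z₁ E₁ Z₂ E₂ hZ₁ hZ₂ hd hx hy
  refine ⟨q '' Z₁, E₁', q '' Z₂, E₂', hE₁', hE₂', hd', ?_⟩
  intro T' hT' hS
  obtain ⟨T, hT, hS'⟩ := h.sep_transfer (Z₁ := Z₁) (Z₂ := Z₂)
    (fun z hz => Or.inl (Set.mem_image_of_mem q hz))
    (fun z hz => Set.mem_image_of_mem q hz) hd' h3 h4 hT' hS
  exact hns T hT hS'

end TwwSep
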