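import Pool.Agent.TwwSep.Haven
import Pool.Agent.TwwSep.Ring

/-!
# Building cycles from lists and from four connected sets
-/

namespace TwwSep

variable {α : Type*}

/-- A cyclic list is a cycle. -/
theorem ring_of_list {H : SimpleGraph α} {a : α} {l : List α} (hnd : (a :: l).Nodup)
    (hlen : 3 ≤ (a :: l).length) (hch : (a :: (l ++ [a])).IsChain H.Adj) :
    ∃ E, IsRing H {x | x ∈ a :: l} E := by
  classical
  set L := a :: l with hL
  set n := L.length with hn
  have : NeZero n := ⟨by omega⟩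
  let g : ZMod n → α := fun i => L[i.val]'(ZMod.val_lt i)
  have hginj : Function.Injective g := by
    intro i j hij
    have := (List.Nodup.getElem_inj_iff hnd).1 hij
    exact ZMod.val_injective n this
  have hLa : ∀ (i : ℕ) (hi : i < n), (a :: (l ++ [a]))[i]'(by simp [hn, hL] at hi ⊢; omega) = L[i] := by
    intro i hi
    have e : a :: (l ++ [a]) = L ++ [a] := by simp [hL]
    simp only [e]
    rw [List.getElem_append_left]
  have hadj : ∀ i, H.Adj (g i) (g (i + 1)) := by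
    intro i
    have hi := ZMod.val_lt i
    have hc := List.isChain_iff_getElem.1 hch i.val (by simp [hn, hL] at hi ⊢; omega)
    by_cases hlt : i.val + 1 < n
    · have e1 : (i + 1).val = i.val + 1 := by
        rw [ZMod.val_add, ZMod.val_one'' (by omega), Nat.mod_eq_of_lt hlt]
      rw [hLa _ hi, hLa _ hlt] at hc
      simp only [g, e1]
      exact hc
    · have e1 : (i + 1).val = 0 := by
        rw [ZMod.val_add, ZMod.val_one'' (by omega)]
        have : i.val + 1 = n := by omega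
        rw [this, Nat.mod_self]
      rw [hLa _ hi] at hc
      simp only [g, e1]
      have e2 : (a :: (l ++ [a]))[i.val + 1]'(by simp [hn, hL] at hi ⊢; omega) = a := by
        have e : a :: (l ++ [a]) = L ++ [a] := by simp [hL]
        simp only [e]
        rw [List.getElem_append_right (by omega)]
        simp
      rw [e2] at hc
      simpa [hL] using hc
  have hmem : ∀ x, x ∈ L ↔ ∃ i, g i = x := by
    intro x
    constructor
    · intro hx
      obtain ⟨i, hi, rfl⟩ := List.getElem_of_mem hx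
      refine ⟨(i : ZMod n), ?_⟩
      simp only [g]
      congr 1
      rw [ZMod.val_natCast, Nat.mod_eq_of_lt hi]
    · rintro ⟨i, rfl⟩
      exact List.getElem_mem _
  have h2 : (2 : ZMod n) ≠ 0 := by
    intro h
    have : ((2 : ℕ) : ZMod n) = 0 := by exact_mod_cast h
    rw [ZMod.natCast_eq_zero_iff] at this
    have := Nat.le_of_dvd (by norm_num) this
    omega
  refine ⟨fun x y => ∃ i, (x = g i ∧ y = g (i + 1)) ∨ (y = g i ∧ x = g (i + 1)), ?_⟩
  refine ⟨⟨a, by simp [hL]⟩, ?_, ?_, ?_, ?_, ?_⟩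
  · rintro x y ⟨i, h | h⟩
    · exact ⟨i, Or.inr h⟩
    · exact ⟨i, Or.inl h⟩
  · rintro x y ⟨i, ⟨rfl, rfl⟩ | ⟨rfl, rfl⟩⟩
    · exact hadj i
    · exact (hadj i).symm
  · rintro x y ⟨i, ⟨rfl, rfl⟩ | ⟨rfl, rfl⟩⟩
    · exact (hmem _).2 ⟨_, rfl⟩
    · exact (hmem _).2 ⟨_, rfl⟩
  · intro x hx
    obtain ⟨i, rfl⟩ := (hmem x).1 hx
    refine ⟨g (i + 1), g (i - 1), ?_, ⟨i, Or.inl ⟨rfl, rfl⟩⟩, ⟨i - 1, Or.inr ⟨rfl, by rw [sub_add_cancel]⟩⟩, ?_⟩
    · intro e
      have := hginj e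
      apply h2
      have h3 : (i + 1) - (i - 1) = 0 := by rw [this]; ring
      have h4 : (i + 1) - (i - 1) = 2 := by ring
      rw [← h4, h3]
    · rintro c ⟨j, ⟨h1, rfl⟩ | ⟨rfl, h1⟩⟩
      · left
        rw [hginj h1]
      · right
        have := hginj h1
        rw [this, add_sub_cancel_right]
  · intro W hW ⟨x, hx⟩ hcl
    obtain ⟨i, rfl⟩ := (hmem x).1 (hW hx)
    have hk : ∀ k : ℕ, g (i + k) ∈ W := by
      intro k
      induction k with
      | zero => simpa using hx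
      | succ k ih =>
        apply hcl _ ih
        refine ⟨i + k, Or.inl ⟨rfl, ?_⟩⟩
        push_cast
        rw [add_assoc]
    apply Set.Subset.antisymm hW
    intro y hy
    obtain ⟨j, rfl⟩ := (hmem y).1 hy
    have := hk (j - i).val
    rw [ZMod.natCast_zmod_val, add_sub_cancel] at this
    exact this

/-- A cycle through four given vertices, from four connected sets. -/
theorem ring_of_four {H : SimpleGraph α} {T T' Q Q' : Set α} (hT : Conn H T) (hT' : Conn H T')
    (hQ : Conn H Q) (hQ' : Conn H Q') {s s' t t' : α} (hs : s ∈ T) (hs' : s' ∈ T) (hss : s ≠ s')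
    (ht : t ∈ T') (ht' : t' ∈ T') (htt : t ≠ t') (hsQ : s ∈ Q) (htQ : t ∈ Q)
    (hsQ' : s' ∈ Q') (htQ' : t' ∈ Q') (hTT : Disjoint T T') (hQQ : Disjoint Q Q')
    (h1 : ∀ x ∈ Q, x ∈ T → x = s) (h2 : ∀ x ∈ Q, x ∈ T' → x = t)
    (h3 : ∀ x ∈ Q', x ∈ T → x = s') (h4 : ∀ x ∈ Q', x ∈ T' → x = t') :
    ∃ Z E, IsRing H Z E ∧ Z ⊆ T ∪ T' ∪ Q ∪ Q' ∧ s ∈ Z ∧ s' ∈ Z ∧ t ∈ Z ∧ t' ∈ Z := by
  have hst' : s' ≠ t' := fun e => Set.disjoint_left.1 hTT hs' (e ▸ ht')
  have hts : t ≠ s := fun e => Set.disjoint_left.1 hTT hs (e ▸ ht)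
  obtain ⟨m1, n1, c1, d1⟩ := hT.path_list hs hs' hss
  obtain ⟨m2, n2, c2, d2⟩ := hQ'.path_list hsQ' htQ' hst'
  obtain ⟨m3, n3, c3, d3⟩ := hT'.path_list ht' ht htt.symm
  obtain ⟨m4, n4, c4, d4⟩ := hQ.path_list htQ hsQ hts
  -- the blocks
  have b1 : ∀ x ∈ s :: m1, x ∈ T ∧ x ≠ s' := by
    intro x hx
    have hn : (s :: m1 ++ [s']).Nodup := n1
    rw [List.nodup_append] at hn
    refine ⟨?_, hn.2.2 x hx s' (by simp)⟩
    rcases List.mem_cons.1 hx with rfl | hx
    · exact hs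
    · exact d1 x hx
  have b2 : ∀ x ∈ s' :: m2, x ∈ Q' ∧ x ≠ t' := by
    intro x hx
    have hn : (s' :: m2 ++ [t']).Nodup := n2
    rw [List.nodup_append] at hn
    refine ⟨?_, hn.2.2 x hx t' (by simp)⟩
    rcases List.mem_cons.1 hx with rfl | hx
    · exact hsQ'
    · exact d2 x hx
  have b3 : ∀ x ∈ t' :: m3, x ∈ T' ∧ x ≠ t := by
    intro x hx
    have hn : (t' :: m3 ++ [t]).Nodup := n3
    rw [List.nodup_append] at hn
    refine ⟨?_, hn.2.2 x hx t (by simp)⟩
    rcases List.mem_cons.1 hx with rfl | hx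
    · exact ht'
    · exact d3 x hx
  have b4 : ∀ x ∈ t :: m4, x ∈ Q ∧ x ≠ s := by
    intro x hx
    have hn : (t :: m4 ++ [s]).Nodup := n4
    rw [List.nodup_append] at hn
    refine ⟨?_, hn.2.2 x hx s (by simp)⟩
    rcases List.mem_cons.1 hx with rfl | hx
    · exact htQ
    · exact d4 x hx
  have k1 : (s :: m1).Nodup := by
    have hn : (s :: m1 ++ [s']).Nodup := n1
    exact (List.nodup_append.1 hn).1
  have k2 : (s' :: m2).Nodup := by
    have hn : (s' :: m2 ++ [t']).Nodup := n2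
    exact (List.nodup_append.1 hn).1
  have k3 : (t' :: m3).Nodup := by
    have hn : (t' :: m3 ++ [t]).Nodup := n3
    exact (List.nodup_append.1 hn).1
  have k4 : (t :: m4).Nodup := by
    have hn : (t :: m4 ++ [s]).Nodup := n4
    exact (List.nodup_append.1 hn).1
  have hnd : (s :: (m1 ++ s' :: (m2 ++ t' :: (m3 ++ t :: m4)))).Nodup := by
    have e : s :: (m1 ++ s' :: (m2 ++ t' :: (m3 ++ t :: m4))) =
        (s :: m1) ++ ((s' :: m2) ++ ((t' :: m3) ++ (t :: m4))) := by simp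
    rw [e, List.nodup_append, List.nodup_append, List.nodup_append]
    refine ⟨k1, ⟨k2, ⟨k3, k4, ?_⟩, ?_⟩, ?_⟩
    · rintro x hx _ hy rfl
      exact (b3 x hx).2 (h2 x (b4 x hy).1 (b3 x hx).1)
    · rintro x hx _ hy rfl
      rcases List.mem_append.1 hy with hy | hy
      · exact (b2 x hx).2 (h4 x (b2 x hx).1 (b3 x hy).1)
      · exact Set.disjoint_left.1 hQQ (b4 x hy).1 (b2 x hx).1
    · rintro x hx _ hy rfl
      rcases List.mem_append.1 hy with hy | hy
      · exact (b1 x hx).2 (h3 x (b2 x hy).1 (b1 x hx).1)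
      · rcases List.mem_append.1 hy with hy | hy
        · exact Set.disjoint_left.1 hTT (b1 x hx).1 (b3 x hy).1
        · exact (b4 x hy).2 (h1 x (b4 x hy).1 (b1 x hx).1)
  have hch : (s :: ((m1 ++ s' :: (m2 ++ t' :: (m3 ++ t :: m4))) ++ [s])).IsChain H.Adj := by
    have e : s :: ((m1 ++ s' :: (m2 ++ t' :: (m3 ++ t :: m4))) ++ [s]) =
        s :: (m1 ++ s' :: (m2 ++ t' :: (m3 ++ t :: (m4 ++ [s])))) := by simp
    rw [e]
    exact List.isChain_cons_split.2 ⟨c1, List.isChain_cons_split.2 ⟨c2,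
      List.isChain_cons_split.2 ⟨c3, c4⟩⟩⟩
  obtain ⟨E, hE⟩ := ring_of_list hnd (by simp; omega) hch
  refine ⟨_, E, hE, ?_, ?_, ?_, ?_, ?_⟩
  · intro x hx
    have hx' : x ∈ s :: (m1 ++ s' :: (m2 ++ t' :: (m3 ++ t :: m4))) := hx
    have e : s :: (m1 ++ s' :: (m2 ++ t' :: (m3 ++ t :: m4))) =
        (s :: m1) ++ ((s' :: m2) ++ ((t' :: m3) ++ (t :: m4))) := by simp
    rw [e] at hx'
    rcases List.mem_append.1 hx' with h | h
    · exact Or.inl (Or.inl (Or.inl (b1 x h).1))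
    rcases List.mem_append.1 h with h | h
    · exact Or.inr (b2 x h).1
    rcases List.mem_append.1 h with h | h
    · exact Or.inl (Or.inl (Or.inr (b3 x h).1))
    · exact Or.inl (Or.inr (b4 x h).1)
  · show s ∈ s :: _
    simp
  · show s' ∈ s :: _
    simp
  · show t ∈ s :: _
    simp
  · show t' ∈ s :: _
    simp

end TwwSep
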