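import Pool.Agent.TwwSep.Menger

/-!
# Havens and highly attached paths

A haven of order `N + 1` on `H` assigns to every set `S` of at most `N` vertices a connected
component `β S` of `H - S` such that any two of these sets meet.  We show that a haven with
`2 ρ ≤ N` yields a path `R` and a set `S` of `ρ + 1` vertices such that `R` avoids `β S` but meets
`β T` for every set `T` of at most `ρ` vertices.
-/

namespace TwwSep

variable {α : Type*}

/-- In a connected set any two vertices are joined by a path, given as a list. -/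
theorem Conn.path_list {H : SimpleGraph α} {D : Set α} (hD : Conn H D) {a b : α}
    (ha : a ∈ D) (hb : b ∈ D) (hab : a ≠ b) :
    ∃ m : List α, (a :: (m ++ [b])).Nodup ∧ (a :: (m ++ [b])).IsChain H.Adj ∧
      ∀ x ∈ m, x ∈ D := by
  classical
  have key : D ⊆ {x | x = a ∨ ∃ m : List α, (a :: (m ++ [x])).Nodup ∧
      (a :: (m ++ [x])).IsChain H.Adj ∧ ∀ z ∈ m, z ∈ D} := by
    apply hD _ ⟨a, ha, Or.inl rfl⟩
    rintro x hx hxW y hy hxy
    by_cases hya : y = a
    · exact Or.inl hya
    right
    rcases hxW with rfl | ⟨m, hm1, hm2, hm3⟩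
    · refine ⟨[], ?_, ?_, by simp⟩
      · simpa using Ne.symm hya
      · simpa using hxy
    · by_cases hym : y ∈ m
      · obtain ⟨m1, m2, rfl⟩ := List.append_of_mem hym
        refine ⟨m1, ?_, ?_, fun z hz => hm3 z (by simp [hz])⟩
        · have e : a :: (m1 ++ y :: m2 ++ [x]) = (a :: (m1 ++ [y])) ++ (m2 ++ [x]) := by simp
          rw [e] at hm1
          exact (List.nodup_append.1 hm1).1
        · have e : a :: (m1 ++ y :: m2 ++ [x]) = (a :: (m1 ++ [y])) ++ (m2 ++ [x]) := by simp
          rw [e] at hm2
          exact hm2.left_of_append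
      · have hyx : y ≠ x := fun h => by subst h; exact H.loopless.irrefl _ hxy
        refine ⟨m ++ [x], ?_, ?_, ?_⟩
        · have e : a :: (m ++ [x] ++ [y]) = (a :: (m ++ [x])) ++ [y] := by simp
          rw [e, List.nodup_append]
          refine ⟨hm1, by simp, ?_⟩
          intro z hz w hw
          simp only [List.mem_singleton] at hw
          subst hw
          intro hzy
          subst hzy
          simp only [List.mem_cons, List.mem_append, List.not_mem_nil, or_false] at hz
          rcases hz with h | h | h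
          · exact hya h
          · exact hym h
          · exact hyx h
        · have e : a :: (m ++ [x] ++ [y]) = (a :: (m ++ [x])) ++ [y] := by simp
          rw [e, List.isChain_append]
          refine ⟨hm2, List.isChain_singleton _, ?_⟩
          intro z hz w hw
          have e2 : (a :: (m ++ [x])).getLast? = some x := by
            rw [← List.cons_append]
            exact List.getLast?_concat ..
          rw [e2] at hz
          simp only [Option.mem_def, Option.some.injEq, List.head?_cons] at hz hw
          subst hz; subst hw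
          exact hxy
        · intro z hz
          rcases List.mem_append.1 hz with h | h
          · exact hm3 z h
          · simp only [List.mem_singleton] at h
            exact h ▸ hx
  rcases key hb with h | h
  · exact absurd h.symm hab
  · exact h

/-- The version allowing equal ends. -/
theorem Conn.path_list' {H : SimpleGraph α} {D : Set α} (hD : Conn H D) {a b : α}
    (ha : a ∈ D) (hb : b ∈ D) :
    ∃ l : List α, (a :: l).Nodup ∧ (a :: l).IsChain H.Adj ∧ (∀ x ∈ a :: l, x ∈ D) ∧
      (a :: l).getLast? = some b := by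
  by_cases hab : a = b
  · subst hab
    exact ⟨[], by simp, by simp, by simpa using ha, by simp⟩
  · obtain ⟨m, h1, h2, h3⟩ := hD.path_list ha hb hab
    refine ⟨m ++ [b], h1, h2, ?_, ?_⟩
    · intro x hx
      simp only [List.mem_cons, List.mem_append, List.not_mem_nil, or_false] at hx
      rcases hx with rfl | h | rfl
      · exact ha
      · exact h3 x h
      · exact hb
    · rw [← List.cons_append]
      exact List.getLast?_concat ..

theorem conn_of_isChain {H : SimpleGraph α} : ∀ {l : List α}, l.IsChain H.Adj →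
    Conn H {x | x ∈ l} := by
  intro l
  induction l with
  | nil =>
    intro _ W hW _ x hx
    simp at hx
  | cons a l ih =>
    intro hl
    cases l with
    | nil =>
      have : {x | x ∈ [a]} = ({a} : Set α) := by ext; simp
      rw [this]
      exact conn_singleton H a
    | cons b l =>
      rw [List.isChain_cons_cons] at hl
      have := (conn_singleton H a).union_adj (ih hl.2) (x := a) (y := b) rfl (by simp) hl.1
      have e : {x | x ∈ a :: b :: l} = ({a} : Set α) ∪ {x | x ∈ b :: l} := by
        ext x; simp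
      rw [e]
      exact this

/-- Shrink a connected set so that it meets `R` exactly once. -/
theorem Conn.shrink_to {H : SimpleGraph α} {D R : Set α} (hD : Conn H D) {s : α} (hs : s ∈ D)
    (hR : (D ∩ R).Nonempty) :
    ∃ D' ⊆ D, ∃ y ∈ R, Conn H D' ∧ s ∈ D' ∧ y ∈ D' ∧ ∀ x ∈ D', x ∈ R → x = y := by
  by_cases hsR : s ∈ R
  · exact ⟨{s}, by simpa using hs, s, hsR, conn_singleton H s, rfl, rfl, fun x hx _ => hx⟩
  · obtain ⟨z, hzD, hzR⟩ := hR
    have hs' : s ∈ D \ R := ⟨hs, hsR⟩
    have hzK : z ∉ comp H (D \ R) s := fun h => (comp_subset H _ _ h).2 hzR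
    obtain ⟨a, haD, haK, b, hbD, hbK, hab⟩ :=
      hD.exists_adj (W := comp H (D \ R) s) hs (mem_comp_self H hs') hzD hzK
    have hbR : b ∈ R := by
      by_contra hbR
      exact hbK (comp_closed H haK ⟨hbD, hbR⟩ hab)
    refine ⟨comp H (D \ R) s ∪ {b}, ?_, b, hbR, ?_, Or.inl (mem_comp_self H hs'), Or.inr rfl, ?_⟩
    · exact Set.union_subset (fun x hx => (comp_subset H _ _ hx).1) (by simpa using hbD)
    · exact (conn_comp H hs').union_adj (conn_singleton H b) haK rfl hab
    · rintro x (hx | hx) hxR
      · exact absurd hxR (comp_subset H _ _ hx).2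
      · exact hx

/-- A haven of order `N + 1`. -/
structure Haven (H : SimpleGraph α) (N : ℕ) where
  β : Finset α → Set α
  conn : ∀ S : Finset α, S.card ≤ N → Conn H (β S)
  avoid : ∀ S : Finset α, S.card ≤ N → ∀ x ∈ β S, x ∉ S
  closed : ∀ S : Finset α, S.card ≤ N → ∀ x ∈ β S, ∀ y, H.Adj x y → y ∈ β S ∪ (↑S : Set α)
  meet : ∀ S T : Finset α, S.card ≤ N → T.card ≤ N → (β S ∩ β T).Nonempty

variable {H : SimpleGraph α} {N : ℕ}

theorem Haven.sub_of_avoid (hv : Haven H N) {S T : Finset α} (hS : S.card ≤ N) (hT : T.card ≤ N)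
    (h : ∀ x ∈ hv.β T, x ∉ S) : hv.β T ⊆ hv.β S := by
  apply (hv.conn T hT).subset_of_closed (T := ↑S) (by simpa using h) (hv.closed S hS)
  obtain ⟨x, hx1, hx2⟩ := hv.meet S T hS hT
  exact ⟨x, hx2, hx1⟩

theorem Haven.mono (hv : Haven H N) {S T : Finset α} (hT : T.card ≤ N)
    (h : S ⊆ T) : hv.β T ⊆ hv.β S :=
  hv.sub_of_avoid ((Finset.card_le_card h).trans hT) hT (fun x hx hxS => hv.avoid T hT x hx (h hxS))

/-- `Y` is attached with order `r`. -/
def Haven.Att (hv : Haven H N) (Y : Set α) (r : ℕ) : Prop :=
  ∀ T : Finset α, T.card < r → (Y ∩ hv.β T).Nonempty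

/-- A path `R` separated from the haven by the set `S` of `ρ` vertices, but by no smaller set. -/
def Haven.GoodPair (hv : Haven H N) (ρ : ℕ) (R : List α) (S : Finset α) : Prop :=
  R.Nodup ∧ R.IsChain H.Adj ∧ S.card = ρ ∧ (∀ x ∈ R, x ∉ hv.β S) ∧ hv.Att {x | x ∈ R} ρ

theorem Haven.GoodPair.attS {hv : Haven H N} {ρ : ℕ} {R : List α} {S : Finset α}
    (h : hv.GoodPair ρ R S) (hρ : ρ ≤ N) : hv.Att ↑S ρ := by
  intro T hT
  by_contra hcon
  rw [Set.not_nonempty_iff_eq_empty] at hcon
  obtain ⟨_, _, h3, h4, h5⟩ := h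
  have hsub : hv.β T ⊆ hv.β S := by
    apply hv.sub_of_avoid (by omega) (by omega)
    intro x hx hxS
    have : x ∈ (↑S ∩ hv.β T : Set α) := ⟨by simpa using hxS, hx⟩
    rw [hcon] at this
    exact this
  obtain ⟨x, hxR, hxT⟩ := h5 T hT
  exact h4 x hxR (hsub hxT)

/-- An independent set: every vertex of `S` has a neighbour in `β S`. -/
theorem Haven.exists_adj_of_att (hv : Haven H N) {S : Finset α} (hS : S.card ≤ N)
    (hatt : hv.Att ↑S S.card) {s : α} (hs : s ∈ S) : ∃ c ∈ hv.β S, H.Adj c s := by
  classical
  by_contra hcon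
  push Not at hcon
  have hcard : (S.erase s).card < S.card := Finset.card_erase_lt_of_mem hs
  have hsub : hv.β (S.erase s) ⊆ hv.β S := by
    apply (hv.conn _ (by omega)).subset_of_closed (T := ↑(S.erase s))
    · intro x hx hx'
      exact hv.avoid _ (by omega) x hx (Finset.mem_coe.1 hx')
    · intro x hx y hxy
      rcases hv.closed S hS x hx y hxy with h | h
      · exact Or.inl h
      · right
        have : y ≠ s := fun hys => hcon x hx (hys ▸ hxy)
        exact Finset.mem_coe.2 (Finset.mem_erase.2 ⟨this, Finset.mem_coe.1 h⟩)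
    · obtain ⟨x, hx1, hx2⟩ := hv.meet S (S.erase s) hS (by omega)
      exact ⟨x, hx2, hx1⟩
  obtain ⟨x, hxS, hx⟩ := hatt _ hcard
  exact hv.avoid S hS x (hsub hx) (by simpa using hxS)

/-- The sets of a minimal separation as seen from `N(β (S ∪ T))`. -/
theorem Haven.β_nbhd (hv : Haven H N) {S NE : Finset α} (hS : S.card ≤ N)
    (hNE : NE ⊆ S) (hcl : ∀ v ∈ S, (∃ e ∈ hv.β S, H.Adj e v) → v ∈ NE) :
    hv.β NE = hv.β S := by
  apply Set.Subset.antisymm
  · apply (hv.conn NE ((Finset.card_le_card hNE).trans hS)).subset_of_closed (T := ↑NE)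
    · intro x hx
      simpa using hv.avoid NE ((Finset.card_le_card hNE).trans hS) x hx
    · intro x hx y hxy
      rcases hv.closed S hS x hx y hxy with h | h
      · exact Or.inl h
      · right
        have := hcl y (by simpa using h) ⟨x, hx, hxy⟩
        simpa using this
    · obtain ⟨x, hx1, hx2⟩ := hv.meet S NE hS ((Finset.card_le_card hNE).trans hS)
      exact ⟨x, hx2, hx1⟩
  · exact hv.mono hS hNE

/-- The exits of a good pair. -/
theorem Haven.GoodPair.exits [Finite α] {hv : Haven H N} {ρ : ℕ} {R : List α} {S : Finset α}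
    (h : hv.GoodPair ρ R S) (hρ : ρ ≤ N) :
    ∃ (F : α → Set α) (y : α → α), (∀ s ∈ S, Conn H (F s) ∧ s ∈ F s ∧ y s ∈ F s ∧ y s ∈ R ∧
      (∀ x ∈ F s, x ∈ R → x = y s) ∧ (∀ x ∈ F s, x ∉ hv.β S) ∧ (∀ s' ∈ S, s' ∈ F s → s' = s)) ∧
      (∀ s ∈ S, ∀ s' ∈ S, s ≠ s' → Disjoint (F s) (F s')) := by
  classical
  have hattS := h.attS hρ
  obtain ⟨h1, h2, h3, h4, h5⟩ := h
  have hSN : S.card ≤ N := by omega
  let HC : SimpleGraph α :=
    { Adj := fun x y => H.Adj x y ∧ x ∉ hv.β S ∧ y ∉ hv.β S
      symm := ⟨fun x y hxy => ⟨hxy.1.symm, hxy.2.2, hxy.2.1⟩⟩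
      loopless := ⟨fun x hx => H.loopless.irrefl x hx.1⟩ }
  have hle : HC ≤ H := fun x y hxy => hxy.1
  have hL : Linked HC {x | x ∈ R} ↑S ρ := by
    apply menger
    rintro T ⟨U, hU1, hU2, hU3, hU4⟩
    by_contra hlt
    push Not at hlt
    have hsep : Sep H {x | x ∈ R} ↑S ↑T := by
      refine ⟨U \ hv.β S, ?_, ?_, ?_, ?_⟩
      · intro x hx
        rcases hU1 hx with h | h
        · exact Or.inl ⟨h, h4 x hx⟩
        · exact Or.inr h
      · exact Set.disjoint_of_subset_left (fun x hx => hx.1) hU2
      · exact Set.disjoint_of_subset_left (fun x hx => hx.1) hU3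
      · rintro z ⟨hz, hzC⟩ z' hzz'
        by_cases hz'C : z' ∈ hv.β S
        · exfalso
          rcases hv.closed S hSN z' hz'C z hzz'.symm with h | h
          · exact hzC h
          · exact Set.disjoint_left.1 hU3 hz h
        · rcases hU4 z hz z' ⟨hzz', hzC, hz'C⟩ with h | h
          · exact Or.inl ⟨h, hz'C⟩
          · exact Or.inr h
    refine not_sep_of_conn (hv.conn T (by omega)) ?_ (h5 T hlt) (hattS T hlt) hsep
    intro x hx
    simpa using hv.avoid T (by omega) x hx
  obtain ⟨F, hF1, hF2, hF3⟩ := hL.full h3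
  have hFC : ∀ s ∈ S, ∀ x ∈ F s, x ∉ hv.β S := by
    intro s hs x hx hxC
    have hsub : F s ⊆ {x} := by
      apply (hF1 s hs).2.1 {x} ⟨x, hx, rfl⟩
      intro z _ hz w _ hzw
      rw [Set.mem_singleton_iff] at hz
      subst hz
      exact absurd hxC hzw.2.1
    have := hsub (hF1 s hs).1
    rw [Set.mem_singleton_iff] at this
    subst this
    exact hv.avoid S hSN s hxC hs
  have hsh : ∀ s, ∃ (D : Set α) (y : α), s ∈ S → D ⊆ F s ∧ y ∈ R ∧ Conn H D ∧ s ∈ D ∧ y ∈ D ∧
      ∀ x ∈ D, x ∈ R → x = y := by
    intro s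
    by_cases hs : s ∈ S
    · obtain ⟨D, hD, y, hy, h⟩ := ((hF1 s hs).2.1.mono hle).shrink_to (hF1 s hs).1 (hF1 s hs).2.2
      exact ⟨D, y, fun _ => ⟨hD, hy, h⟩⟩
    · exact ⟨∅, s, fun h => absurd h hs⟩
  choose D y hDy using hsh
  refine ⟨D, y, ?_, ?_⟩
  · intro s hs
    obtain ⟨g1, g2, g3, g4, g5, g6⟩ := hDy s hs
    exact ⟨g3, g4, g5, g2, g6, fun x hx => hFC s hs x (g1 hx),
      fun s' hs' hs'' => hF2 s hs s' hs' (g1 hs'')⟩
  · intro s hs s' hs' hne
    exact Set.disjoint_of_subset (hDy s hs).1 (hDy s' hs').1 (hF3 s hs s' hs' hne)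

/-- Split a list at the last element satisfying `p`. -/
theorem exists_last {p : α → Prop} : ∀ {R : List α}, (∃ x ∈ R, p x) →
    ∃ Ra y Rb, R = Ra ++ y :: Rb ∧ p y ∧ ∀ z ∈ Rb, ¬ p z := by
  intro R
  induction R with
  | nil => rintro ⟨x, hx, _⟩; simp at hx
  | cons a R ih =>
    rintro ⟨x, hx, hpx⟩
    by_cases h : ∃ x ∈ R, p x
    · obtain ⟨Ra, y, Rb, e, hy, hz⟩ := ih h
      exact ⟨a :: Ra, y, Rb, by rw [e]; rfl, hy, hz⟩
    · push Not at h
      refine ⟨[], a, R, rfl, ?_, h⟩
      rcases List.mem_cons.1 hx with rfl | hx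
      · exact hpx
      · exact absurd hpx (h x hx)

open Classical in
/-- The submodularity estimate. -/
theorem Haven.card_nbhd_le [Finite α] (hv : Haven H N) {S T NE : Finset α} {P : α → Set α}
    (hST : (S ∪ T).card ≤ N)
    (hNE : ∀ v ∈ NE, v ∈ S ∪ T ∧ ∃ e ∈ hv.β (S ∪ T), H.Adj e v)
    (hP1 : ∀ s ∈ S, Conn H (P s) ∧ s ∈ P s ∧ (∀ x ∈ P s, x ∉ hv.β S) ∧ ∃ z ∈ P s, z ∉ hv.β T)
    (hP2 : ∀ s ∈ S, ∀ s' ∈ S, s ≠ s' → Disjoint (P s) (P s')) :
    NE.card ≤ T.card := by
  have hSN : S.card ≤ N := (Finset.card_le_card Finset.subset_union_left).trans hST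
  have hTN : T.card ≤ N := (Finset.card_le_card Finset.subset_union_right).trans hST
  set a := S.filter (fun v => v ∈ hv.β T) with ha
  set b := T.filter (fun v => v ∈ hv.β S) with hb
  set c := S ∩ T with hc
  set d := S.filter (fun v => v ∉ hv.β T ∧ v ∉ T) with hd
  set e := T.filter (fun v => v ∉ hv.β S ∧ v ∉ S) with he
  have hS : S.card = a.card + c.card + d.card := by
    rw [← Finset.card_union_of_disjoint, ← Finset.card_union_of_disjoint]
    · congr 1
      ext v
      simp only [ha, hc, hd, Finset.mem_union, Finset.mem_filter, Finset.mem_inter]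
      tauto
    · rw [Finset.disjoint_left]
      intro v hv1 hv2
      simp only [ha, hc, hd, Finset.mem_union, Finset.mem_filter, Finset.mem_inter] at hv1 hv2
      tauto
    · rw [Finset.disjoint_left]
      intro v hv1 hv2
      simp only [ha, hc, Finset.mem_filter, Finset.mem_inter] at hv1 hv2
      exact hv.avoid T hTN v hv1.2 hv2.2
  have hT : T.card = b.card + c.card + e.card := by
    rw [← Finset.card_union_of_disjoint, ← Finset.card_union_of_disjoint]
    · congr 1
      ext v
      simp only [hb, hc, he, Finset.mem_union, Finset.mem_filter, Finset.mem_inter]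
      tauto
    · rw [Finset.disjoint_left]
      intro v hv1 hv2
      simp only [hb, hc, he, Finset.mem_union, Finset.mem_filter, Finset.mem_inter] at hv1 hv2
      tauto
    · rw [Finset.disjoint_left]
      intro v hv1 hv2
      simp only [hb, hc, Finset.mem_filter, Finset.mem_inter] at hv1 hv2
      exact hv.avoid S hSN v hv1.2 hv2.1
  have hNEsub : NE ⊆ a ∪ b ∪ c := by
    intro v hvNE
    obtain ⟨hv1, e', he', hadj⟩ := hNE v hvNE
    have heS : e' ∈ hv.β S := hv.mono hST Finset.subset_union_left he'
    have heT : e' ∈ hv.β T := hv.mono hST Finset.subset_union_right he'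
    have hcS := hv.closed S hSN e' heS v hadj
    have hcT := hv.closed T hTN e' heT v hadj
    simp only [Set.mem_union, Finset.mem_coe] at hcS hcT
    simp only [ha, hb, hc, Finset.mem_union, Finset.mem_filter, Finset.mem_inter] at hv1 ⊢
    by_cases hvS : v ∈ S <;> by_cases hvT : v ∈ T <;> tauto
  have hM : S.card ≤ (d ∪ e ∪ c).card := by
    have hch : ∀ s, ∃ m, s ∈ S → m ∈ P s ∧ m ∈ d ∪ e ∪ c := by
      intro s
      by_cases hs : s ∈ S
      · obtain ⟨g1, g2, g3, z, hz1, hz2⟩ := hP1 s hs
        by_cases hsD : s ∈ hv.β T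
        · obtain ⟨p, hpP, hpD, q, hqP, hqD, hpq⟩ := g1.exists_adj (W := hv.β T) g2 hsD hz1 hz2
          have hqT : q ∈ T := by
            rcases hv.closed T hTN p hpD q hpq with h | h
            · exact absurd h hqD
            · simpa using h
          refine ⟨q, fun _ => ⟨hqP, ?_⟩⟩
          simp only [hd, he, hc, Finset.mem_union, Finset.mem_filter, Finset.mem_inter]
          have := g3 q hqP
          by_cases hqS : q ∈ S <;> tauto
        · refine ⟨s, fun _ => ⟨g2, ?_⟩⟩
          simp only [hd, he, hc, Finset.mem_union, Finset.mem_filter, Finset.mem_inter]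
          by_cases hsT : s ∈ T <;> tauto
      · exact ⟨s, fun h => absurd h hs⟩
    choose m hm using hch
    apply Finset.card_le_card_of_injOn m
    · intro s hs
      exact (hm s hs).2
    · intro s hs s' hs' hmm
      by_contra hne
      have := Set.disjoint_left.1 (hP2 s hs s' hs' hne) (hm s hs).1
      rw [hmm] at this
      exact this (hm s' hs').1
  have h1 : NE.card ≤ a.card + b.card + c.card := by
    calc NE.card ≤ (a ∪ b ∪ c).card := Finset.card_le_card hNEsub
      _ ≤ (a ∪ b).card + c.card := Finset.card_union_le _ _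
      _ ≤ a.card + b.card + c.card := by
          have := Finset.card_union_le a b
          omega
  have h2 : (d ∪ e ∪ c).card ≤ d.card + e.card + c.card := by
    calc (d ∪ e ∪ c).card ≤ (d ∪ e).card + c.card := Finset.card_union_le _ _
      _ ≤ d.card + e.card + c.card := by
          have := Finset.card_union_le d e
          omega
  omega

theorem Haven.goodPair_succ [Finite α] (hv : Haven H N) {ρ : ℕ} (hρ1 : 1 ≤ ρ) (hρ : 2 * ρ ≤ N) :
    ∀ (n : ℕ) (R : List α) (S : Finset α), hv.GoodPair ρ R S → (hv.β S).ncard = n →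
      ∃ R' S', hv.GoodPair (ρ + 1) R' S' := by
  classical
  intro n
  induction n using Nat.strong_induction_on with
  | _ n ih =>
    intro R S h hn
    have hattS := h.attS (by omega)
    obtain ⟨F, y, hF, hFd⟩ := h.exits (by omega)
    obtain ⟨h1, h2, h3, h4, h5⟩ := h
    have hSN : S.card ≤ N := by omega
    -- the last exit
    have hex : ∃ x ∈ R, ∃ s ∈ S, y s = x := by
      have : S.Nonempty := by
        rw [← Finset.card_pos]; omega
      obtain ⟨s, hs⟩ := this
      exact ⟨y s, (hF s hs).2.2.2.1, s, hs, rfl⟩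
    obtain ⟨Ra, y₁, Rb, hR, ⟨s₁, hs₁, hy₁⟩, hRb⟩ := exists_last hex
    obtain ⟨g1, g2, g3, g4, g5, g6, g7⟩ := hF s₁ hs₁
    rw [hy₁] at g3 g4 g5
    obtain ⟨l, hl1, hl2, hl3, hl4⟩ := g1.path_list' g3 g2
    obtain ⟨c, hcC, hcs⟩ := hv.exists_adj_of_att hSN (by rw [h3]; exact hattS) hs₁
    set R' : List α := Ra ++ (y₁ :: l) ++ [c] with hR'
    have hRnd : (Ra ++ y₁ :: Rb).Nodup := by rw [← hR]; exact h1
    have hRch : (Ra ++ y₁ :: Rb).IsChain H.Adj := by rw [← hR]; exact h2
    have hRaR : ∀ x ∈ Ra, x ∈ R := fun x hx => by rw [hR]; simp [hx]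
    have hRay : ∀ x ∈ Ra, x ≠ y₁ := by
      intro x hx hxy
      exact (List.nodup_append.1 hRnd).2.2 x hx y₁ (by simp) hxy
    have hmemR' : ∀ x, x ∈ R' ↔ x ∈ Ra ∨ x ∈ y₁ :: l ∨ x = c := by
      intro x
      simp only [hR', List.mem_append, List.mem_singleton]
      tauto
    have hRac : ∀ x ∈ Ra, x ∉ hv.β S := fun x hx => h4 x (hRaR x hx)
    have hlC : ∀ x ∈ y₁ :: l, x ∉ hv.β S := fun x hx => g6 x (hl3 x hx)
    have hs₁l : s₁ ∈ y₁ :: l := List.mem_of_getLast? hl4
    have hnd : R'.Nodup := by
      rw [hR', List.nodup_append, List.nodup_append]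
      refine ⟨⟨(List.nodup_append.1 hRnd).1, hl1, ?_⟩, by simp, ?_⟩
      · intro a ha b hb hab
        subst hab
        have := g5 a (hl3 a hb) (hRaR a ha)
        exact hRay a ha this
      · intro a ha b hb hab
        simp only [List.mem_singleton] at hb
        subst hb; subst hab
        rcases List.mem_append.1 ha with h | h
        · exact hRac a h hcC
        · exact hlC a h hcC
    have hch : R'.IsChain H.Adj := by
      rw [hR', List.isChain_append]
      refine ⟨?_, List.isChain_singleton _, ?_⟩
      · rw [List.isChain_split]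
        exact ⟨(List.isChain_split.1 hRch).1, hl2⟩
      · intro x hx z hz
        have e2 : (Ra ++ (y₁ :: l)).getLast? = some s₁ := by
          rw [List.getLast?_append_of_ne_nil _ (by simp)]
          exact hl4
        rw [e2] at hx
        simp only [Option.mem_def, Option.some.injEq, List.head?_cons] at hx hz
        subst hx; subst hz
        exact hcs.symm
    -- the exits start on `R'`
    have hyR' : ∀ s ∈ S, y s ∈ R' := by
      intro s hs
      have : y s ∈ R := (hF s hs).2.2.2.1
      rw [hR] at this
      rw [hmemR']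
      rcases List.mem_append.1 this with h | h
      · exact Or.inl h
      · rcases List.mem_cons.1 h with h | h
        · exact Or.inr (Or.inl (by rw [h]; simp))
        · exact absurd ⟨s, hs, rfl⟩ (hRb _ h)
    -- key
    have key : ∀ T : Finset α, T.card ≤ ρ → (∀ x ∈ R', x ∉ hv.β T) →
        T.card = ρ ∧ ∃ R'' S'', hv.GoodPair (ρ + 1) R'' S'' := by
      intro T hT hTR
      have hSTN : (S ∪ T).card ≤ N := by
        have := Finset.card_union_le S T
        omega
      have hTN : T.card ≤ N := by omega
      set NE := (S ∪ T).filter (fun v => ∃ e ∈ hv.β (S ∪ T), H.Adj e v) with hNE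
      have hNEsub : NE ⊆ S ∪ T := Finset.filter_subset _ _
      have hβNE : hv.β NE = hv.β (S ∪ T) := by
        apply hv.β_nbhd hSTN hNEsub
        intro v hv1 hv2
        exact Finset.mem_filter.2 ⟨hv1, hv2⟩
      have hcardNE : ∀ T' : Finset α, T' = T → NE.card ≤ T.card := by
        intro T' _
        apply hv.card_nbhd_le (P := fun s => if s = s₁ then {s₁} else F s) hSTN
        · intro v hv1
          exact Finset.mem_filter.1 hv1
        · intro s hs
          by_cases hss : s = s₁
          · subst hss
            simp only [if_true]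
            refine ⟨conn_singleton H s, rfl, ?_, s, rfl, ?_⟩
            · intro x hx
              rw [Set.mem_singleton_iff] at hx
              subst hx
              exact fun h => hv.avoid S hSN x h hs
            · exact hTR s ((hmemR' s).2 (Or.inr (Or.inl hs₁l)))
          · simp only [if_neg hss]
            obtain ⟨k1, k2, k3, k4, k5, k6, k7⟩ := hF s hs
            exact ⟨k1, k2, k6, y s, k3, hTR _ (hyR' s hs)⟩
        · intro s hs s' hs' hne
          have hsub : ∀ t ∈ S, (if t = s₁ then {s₁} else F t : Set α) ⊆ F t := by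
            intro t ht
            split_ifs with h
            · subst h
              simpa using (hF t ht).2.1
            · exact subset_rfl
          exact Set.disjoint_of_subset (hsub s hs) (hsub s' hs') (hFd s hs s' hs' hne)
      have hNE1 : NE.card ≤ T.card := hcardNE T rfl
      have hβsubS : hv.β NE ⊆ hv.β S := by
        rw [hβNE]; exact hv.mono hSTN Finset.subset_union_left
      have hβsubT : hv.β NE ⊆ hv.β T := by
        rw [hβNE]; exact hv.mono hSTN Finset.subset_union_right
      have hNE2 : ρ ≤ NE.card := by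
        by_contra hlt
        push Not at hlt
        obtain ⟨x, hxS, hx⟩ := hattS NE hlt
        exact hv.avoid S hSN x (hβsubS hx) (by simpa using hxS)
      have hTρ : T.card = ρ := by omega
      refine ⟨hTρ, ?_⟩
      have hlt : (hv.β NE).ncard < n := by
        rw [← hn]
        apply Set.ncard_lt_ncard _ (Set.toFinite _)
        refine ⟨hβsubS, fun hsub => ?_⟩
        exact hTR c ((hmemR' c).2 (Or.inr (Or.inr rfl))) (hβsubT (hsub hcC))
      refine ih _ hlt R' NE ⟨hnd, hch, by omega, ?_, ?_⟩ rfl
      · intro x hx hxE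
        exact hTR x hx (hβsubT hxE)
      · intro T' hT'
        by_contra hcon
        rw [Set.not_nonempty_iff_eq_empty] at hcon
        have hT'R : ∀ x ∈ R', x ∉ hv.β T' := by
          intro x hx hxT
          have : x ∈ ({x | x ∈ R'} ∩ hv.β T' : Set α) := ⟨hx, hxT⟩
          rw [hcon] at this
          exact this
        -- same estimate for T'
        have hST'N : (S ∪ T').card ≤ N := by
          have := Finset.card_union_le S T'
          omega
        set NE' := (S ∪ T').filter (fun v => ∃ e ∈ hv.β (S ∪ T'), H.Adj e v) with hNE'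
        have hβNE' : hv.β NE' = hv.β (S ∪ T') := by
          apply hv.β_nbhd hST'N (Finset.filter_subset _ _)
          intro v hv1 hv2
          exact Finset.mem_filter.2 ⟨hv1, hv2⟩
        have hc' : NE'.card ≤ T'.card := by
          apply hv.card_nbhd_le (P := fun s => if s = s₁ then {s₁} else F s) hST'N
          · intro v hv1
            exact Finset.mem_filter.1 hv1
          · intro s hs
            by_cases hss : s = s₁
            · subst hss
              simp only [if_true]
              refine ⟨conn_singleton H s, rfl, ?_, s, rfl, ?_⟩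
              · intro x hx
                rw [Set.mem_singleton_iff] at hx
                subst hx
                exact fun h => hv.avoid S hSN x h hs
              · exact hT'R s ((hmemR' s).2 (Or.inr (Or.inl hs₁l)))
            · simp only [if_neg hss]
              obtain ⟨k1, k2, k3, k4, k5, k6, k7⟩ := hF s hs
              exact ⟨k1, k2, k6, y s, k3, hT'R _ (hyR' s hs)⟩
          · intro s hs s' hs' hne
            have hsub : ∀ t ∈ S, (if t = s₁ then {s₁} else F t : Set α) ⊆ F t := by
              intro t ht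
              split_ifs with h
              · subst h
                simpa using (hF t ht).2.1
              · exact subset_rfl
            exact Set.disjoint_of_subset (hsub s hs) (hsub s' hs') (hFd s hs s' hs' hne)
        obtain ⟨x, hxS, hx⟩ := hattS NE' (by omega)
        have : hv.β NE' ⊆ hv.β S := by
          rw [hβNE']; exact hv.mono hST'N Finset.subset_union_left
        exact hv.avoid S hSN x (this hx) (by simpa using hxS)
    by_cases hall : ∀ T : Finset α, T.card < ρ + 1 → ({x | x ∈ R'} ∩ hv.β T : Set α).Nonempty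
    · have hcS : c ∉ S := fun h => hv.avoid S hSN c hcC h
      refine ⟨R', insert c S, hnd, hch, ?_, ?_, hall⟩
      · rw [Finset.card_insert_of_notMem hcS, h3]
      · have hcard : (insert c S).card ≤ N := by
          rw [Finset.card_insert_of_notMem hcS, h3]; omega
        intro x hx hxβ
        have hxC : x ∈ hv.β S := hv.mono hcard (Finset.subset_insert c S) hxβ
        have hxc : x ≠ c := fun h => hv.avoid _ hcard x hxβ (by simp [h])
        rcases (hmemR' x).1 hx with h | h | h
        · exact hRac x h hxC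
        · exact hlC x h hxC
        · exact hxc h
    · push Not at hall
      obtain ⟨T, hT, hTR⟩ := hall
      refine (key T (by omega) ?_).2
      intro x hx hxT
      have : x ∈ ({x | x ∈ R'} ∩ hv.β T : Set α) := ⟨hx, hxT⟩
      rw [hTR] at this
      exact this

theorem Haven.exists_goodPair [Finite α] (hv : Haven H N) (hN : 1 ≤ N) :
    ∀ ρ : ℕ, 2 * ρ ≤ N → ∃ R S, hv.GoodPair (ρ + 1) R S := by
  classical
  intro ρ
  induction ρ with
  | zero =>
    intro _
    obtain ⟨v, hv1, _⟩ := hv.meet ∅ ∅ (by simp) (by simp)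
    refine ⟨[v], {v}, by simp, by simp, by simp, ?_, ?_⟩
    · intro x hx hxβ
      simp only [List.mem_singleton] at hx
      subst hx
      exact hv.avoid {x} (by simpa using hN) x hxβ (by simp)
    · intro T hT
      have : T = ∅ := by
        rw [← Finset.card_eq_zero]; omega
      subst this
      exact ⟨v, by simp, hv1⟩
  | succ ρ ih =>
    intro h
    obtain ⟨R, S, hRS⟩ := ih (by omega)
    exact hv.goodPair_succ (by omega) (by omega) _ R S hRS rfl

end TwwSep
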