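import Pool.Agent.TwwSep.Build

/-!
# A haven of order 23 contains two disjoint cycles not separated by three vertices (conclusion)
-/

namespace TwwSep

variable {α : Type*} {H : SimpleGraph α} {N : ℕ}

/-- The data extracted from a good pair of order 12. -/
structure Frame (hv : Haven H N) (R : List α) (S : Finset α) (F : α → Set α) (y : α → α) :
    Prop where
  conn : ∀ s ∈ S, Conn H (F s)
  self : ∀ s ∈ S, s ∈ F s
  mem : ∀ s ∈ S, y s ∈ F s
  memR : ∀ s ∈ S, y s ∈ R
  uniqR : ∀ s ∈ S, ∀ x ∈ F s, x ∈ R → x = y s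
  avoid : ∀ s ∈ S, ∀ x ∈ F s, x ∉ hv.β S
  uniqS : ∀ s ∈ S, ∀ x ∈ F s, ∀ s' ∈ S, s' = x → s' = s
  disj : ∀ s ∈ S, ∀ s' ∈ S, s ≠ s' → Disjoint (F s) (F s')
  R_avoid : ∀ x ∈ R, x ∉ hv.β S

/-- The piece attached to a segment `R'` of `R`. -/
def piece (S : Finset α) (F : α → Set α) (y : α → α) (R' : List α) : Set α :=
  {x | x ∈ R'} ∪ {x | ∃ s ∈ S, y s ∈ R' ∧ x ∈ F s}

namespace Frame

variable {hv : Haven H N} {R : List α} {S : Finset α} {F : α → Set α} {y : α → α}

theorem conn_piece (h : Frame hv R S F y) {R' : List α} (hR' : R'.IsChain H.Adj) :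
    Conn H (piece S F y R') := by
  intro W hW hcl
  have hF : ∀ s ∈ S, y s ∈ R' → (∃ x ∈ F s, x ∈ W) → F s ⊆ W := by
    intro s hs hys hx
    apply h.conn s hs W hx
    intro a ha haW b hb hab
    exact hcl a (Or.inr ⟨s, hs, hys, ha⟩) haW b (Or.inr ⟨s, hs, hys, hb⟩) hab
  have hR : (∃ x ∈ R', x ∈ W) → ∀ x ∈ R', x ∈ W := by
    rintro ⟨x, hx, hxW⟩
    have := conn_of_isChain hR' W ⟨x, hx, hxW⟩ (by
      intro a ha haW b hb hab
      exact hcl a (Or.inl ha) haW b (Or.inl hb) hab)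
    exact this
  have hRW : ∀ x ∈ R', x ∈ W := by
    obtain ⟨x, hx | ⟨s, hs, hys, hx⟩, hxW⟩ := hW
    · exact hR ⟨x, hx, hxW⟩
    · exact hR ⟨y s, hys, hF s hs hys ⟨x, hx, hxW⟩ (h.mem s hs)⟩
  rintro x (hx | ⟨s, hs, hys, hx⟩)
  · exact hRW x hx
  · exact hF s hs hys ⟨y s, h.mem s hs, hRW _ hys⟩ hx

theorem mem_piece (h : Frame hv R S F y) {R' : List α} {s : α} (hs : s ∈ S) (hy : y s ∈ R') :
    s ∈ piece S F y R' := Or.inr ⟨s, hs, hy, h.self s hs⟩

theorem piece_avoid (h : Frame hv R S F y) {R' : List α} (hsub : ∀ x ∈ R', x ∈ R) {x : α}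
    (hx : x ∈ piece S F y R') : x ∉ hv.β S := by
  rcases hx with hx | ⟨s, hs, _, hx⟩
  · exact h.R_avoid x (hsub x hx)
  · exact h.avoid s hs x hx

theorem piece_S (h : Frame hv R S F y) {R' : List α} (hsub : ∀ x ∈ R', x ∈ R) {x : α}
    (hx : x ∈ piece S F y R') (hxS : x ∈ S) : y x ∈ R' := by
  rcases hx with hx | ⟨s, hs, hys, hx⟩
  · have := h.uniqR x hxS x (h.self x hxS) (hsub x hx)
    rw [← this]
    exact hx
  · have := h.uniqS s hs x hx x hxS rfl
    rw [this]
    exact hys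

theorem piece_disj (h : Frame hv R S F y) {R₁ R₂ : List α} (hsub₁ : ∀ x ∈ R₁, x ∈ R)
    (hsub₂ : ∀ x ∈ R₂, x ∈ R) (hd : ∀ x ∈ R₁, x ∉ R₂) {x : α}
    (hx₁ : x ∈ piece S F y R₁) (hx₂ : x ∈ piece S F y R₂) : False := by
  rcases hx₁ with hx₁ | ⟨s, hs, hys, hx₁⟩
  · rcases hx₂ with hx₂ | ⟨s, hs, hys, hx₂⟩
    · exact hd x hx₁ hx₂
    · have := h.uniqR s hs x hx₂ (hsub₁ x hx₁)
      subst this
      exact hd _ hx₁ hys
  · rcases hx₂ with hx₂ | ⟨s', hs', hys', hx₂⟩
    · have := h.uniqR s hs x hx₁ (hsub₂ x hx₂)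
      subst this
      exact hd _ hys hx₂
    · by_cases hss : s = s'
      · subst hss
        exact hd _ hys hys'
      · exact Set.disjoint_left.1 (h.disj s hs s' hs' hss) hx₁ hx₂

theorem hasPair (h : Frame hv R S F y) (hN : 12 ≤ N) (hS : S.card = 12) (hatt : hv.Att ↑S 12)
    {Ra Rb Rc Rd : List α} (ha : ∀ x ∈ Ra, x ∈ R) (hb : ∀ x ∈ Rb, x ∈ R) (hc : ∀ x ∈ Rc, x ∈ R)
    (hd : ∀ x ∈ Rd, x ∈ R) (ca : Ra.IsChain H.Adj) (cb : Rb.IsChain H.Adj)
    (cc : Rc.IsChain H.Adj) (cd : Rd.IsChain H.Adj)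
    (hab : ∀ x ∈ Ra, x ∉ Rb) (hac : ∀ x ∈ Ra, x ∉ Rc) (had : ∀ x ∈ Ra, x ∉ Rd)
    (hbc : ∀ x ∈ Rb, x ∉ Rc) (hbd : ∀ x ∈ Rb, x ∉ Rd) (hcd : ∀ x ∈ Rc, x ∉ Rd)
    {G : α → Set α} {π : α → α} {Z : Finset α} (hZS : ∀ z ∈ Z, z ∈ S) (hπS : ∀ z ∈ Z, π z ∈ S)
    (hG : ∀ z ∈ Z, Conn H (G z) ∧ z ∈ G z ∧ π z ∈ G z ∧
      (∀ x ∈ G z, x ∈ hv.β S ∨ x = z ∨ x = π z))
    (hGd : ∀ z ∈ Z, ∀ z' ∈ Z, z ≠ z' → Disjoint (G z) (G z'))
    {z z' w w' : α} (hz : z ∈ Z) (hz' : z' ∈ Z) (hw : w ∈ Z) (hw' : w' ∈ Z)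
    (hzz : z ≠ z') (hww : w ≠ w')
    (z1 : y z ∈ Rc) (z2 : y z' ∈ Rc) (z3 : y (π z) ∈ Ra) (z4 : y (π z') ∈ Ra)
    (w1 : y w ∈ Rd) (w2 : y w' ∈ Rd) (w3 : y (π w) ∈ Rb) (w4 : y (π w') ∈ Rb) :
    HasPair H := by
  classical
  have πne : ∀ z ∈ Z, ∀ z' ∈ Z, z ≠ z' → π z ≠ π z' := by
    intro z hz z' hz' hne e
    have := Set.disjoint_left.1 (hGd z hz z' hz' hne) (hG z hz).2.2.1
    rw [e] at this
    exact this (hG z' hz').2.2.1
  -- intersections of the linkage sets with the pieces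
  have key : ∀ R' : List α, (∀ x ∈ R', x ∈ R) → ∀ z ∈ Z, ∀ x ∈ G z, x ∈ piece S F y R' →
      (x = z ∧ y z ∈ R') ∨ (x = π z ∧ y (π z) ∈ R') := by
    intro R' hR' z hz x hx hxp
    rcases (hG z hz).2.2.2 x hx with g | rfl | rfl
    · exact absurd g (h.piece_avoid hR' hxp)
    · exact Or.inl ⟨rfl, h.piece_S hR' hxp (hZS _ hz)⟩
    · exact Or.inr ⟨rfl, h.piece_S hR' hxp (hπS _ hz)⟩
  obtain ⟨Z₁, E₁, hZ₁, hsub₁, a1, a2, a3, a4⟩ := ring_of_four
    (h.conn_piece ca) (h.conn_piece cc) (hG z hz).1 (hG z' hz').1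
    (s := π z) (s' := π z') (t := z) (t' := z')
    (h.mem_piece (hπS z hz) z3) (h.mem_piece (hπS z' hz') z4) (πne z hz z' hz' hzz)
    (h.mem_piece (hZS z hz) z1) (h.mem_piece (hZS z' hz') z2) hzz
    (hG z hz).2.2.1 (hG z hz).2.1 (hG z' hz').2.2.1 (hG z' hz').2.1
    (Set.disjoint_left.2 (fun x h1 h2 => h.piece_disj ha hc hac h1 h2))
    (hGd z hz z' hz' hzz)
    (fun x hx hxp => by
      rcases key Ra ha z hz x hx hxp with g | g
      · exact absurd z1 (hac _ g.2)
      · exact g.1)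
    (fun x hx hxp => by
      rcases key Rc hc z hz x hx hxp with g | g
      · exact g.1
      · exact absurd g.2 (hac _ z3))
    (fun x hx hxp => by
      rcases key Ra ha z' hz' x hx hxp with g | g
      · exact absurd z2 (hac _ g.2)
      · exact g.1)
    (fun x hx hxp => by
      rcases key Rc hc z' hz' x hx hxp with g | g
      · exact g.1
      · exact absurd g.2 (hac _ z4))
  obtain ⟨Z₂, E₂, hZ₂, hsub₂, b1, b2, b3, b4⟩ := ring_of_four
    (h.conn_piece cb) (h.conn_piece cd) (hG w hw).1 (hG w' hw').1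
    (s := π w) (s' := π w') (t := w) (t' := w')
    (h.mem_piece (hπS w hw) w3) (h.mem_piece (hπS w' hw') w4) (πne w hw w' hw' hww)
    (h.mem_piece (hZS w hw) w1) (h.mem_piece (hZS w' hw') w2) hww
    (hG w hw).2.2.1 (hG w hw).2.1 (hG w' hw').2.2.1 (hG w' hw').2.1
    (Set.disjoint_left.2 (fun x h1 h2 => h.piece_disj hb hd hbd h1 h2))
    (hGd w hw w' hw' hww)
    (fun x hx hxp => by
      rcases key Rb hb w hw x hx hxp with g | g
      · exact absurd w1 (hbd _ g.2)
      · exact g.1)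
    (fun x hx hxp => by
      rcases key Rd hd w hw x hx hxp with g | g
      · exact g.1
      · exact absurd g.2 (hbd _ w3))
    (fun x hx hxp => by
      rcases key Rb hb w' hw' x hx hxp with g | g
      · exact absurd w2 (hbd _ g.2)
      · exact g.1)
    (fun x hx hxp => by
      rcases key Rd hd w' hw' x hx hxp with g | g
      · exact g.1
      · exact absurd g.2 (hbd _ w4))
  have hzw : ∀ p ∈ Z, ∀ r ∈ Z, y p ∈ Rc → y r ∈ Rd → p ≠ r := by
    rintro p _ r _ hp hr rfl
    exact hcd _ hp hr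
  refine ⟨Z₁, E₁, Z₂, E₂, hZ₁, hZ₂, ?_, ?_⟩
  · rw [Set.disjoint_left]
    intro x hx1 hx2
    -- linkage set against a piece of the other cycle
    have gp1 : ∀ p ∈ Z, y p ∈ Rc → y (π p) ∈ Ra → x ∈ G p → x ∈ piece S F y Rb → False := by
      intro p hp h1 h2 hx hxp
      rcases key Rb hb p hp x hx hxp with g | g
      · exact hbc _ g.2 h1
      · exact hab _ h2 g.2
    have gp2 : ∀ p ∈ Z, y p ∈ Rc → y (π p) ∈ Ra → x ∈ G p → x ∈ piece S F y Rd → False := by
      intro p hp h1 h2 hx hxp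
      rcases key Rd hd p hp x hx hxp with g | g
      · exact hcd _ h1 g.2
      · exact had _ h2 g.2
    have gp3 : ∀ p ∈ Z, y p ∈ Rd → y (π p) ∈ Rb → x ∈ G p → x ∈ piece S F y Ra → False := by
      intro p hp h1 h2 hx hxp
      rcases key Ra ha p hp x hx hxp with g | g
      · exact had _ g.2 h1
      · exact hab _ g.2 h2
    have gp4 : ∀ p ∈ Z, y p ∈ Rd → y (π p) ∈ Rb → x ∈ G p → x ∈ piece S F y Rc → False := by
      intro p hp h1 h2 hx hxp
      rcases key Rc hc p hp x hx hxp with g | g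
      · exact hcd _ g.2 h1
      · exact hbc _ h2 g.2
    have gg : ∀ p ∈ Z, ∀ r ∈ Z, y p ∈ Rc → y r ∈ Rd → x ∈ G p → x ∈ G r → False := by
      intro p hp r hr h1 h2 hx hx'
      exact Set.disjoint_left.1 (hGd p hp r hr (hzw p hp r hr h1 h2)) hx hx'
    rcases hsub₁ hx1 with ((g | g) | g) | g <;> rcases hsub₂ hx2 with ((g' | g') | g') | g'
    · exact h.piece_disj ha hb hab g g'
    · exact h.piece_disj ha hd had g g'
    · exact gp3 w hw w1 w3 g' g
    · exact gp3 w' hw' w2 w4 g' g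
    · exact h.piece_disj hb hc hbc g' g
    · exact h.piece_disj hc hd hcd g g'
    · exact gp4 w hw w1 w3 g' g
    · exact gp4 w' hw' w2 w4 g' g
    · exact gp1 z hz z1 z3 g g'
    · exact gp2 z hz z1 z3 g g'
    · exact gg z hz w hw z1 w1 g g'
    · exact gg z hz w' hw' z1 w2 g g'
    · exact gp1 z' hz' z2 z4 g g'
    · exact gp2 z' hz' z2 z4 g g'
    · exact gg z' hz' w hw z2 w1 g g'
    · exact gg z' hz' w' hw' z2 w2 g g'
  · intro T hT
    have four : ∀ a b c d : α, a ∈ S → b ∈ S → c ∈ S → d ∈ S → a ≠ b → c ≠ d → a ≠ c → a ≠ d →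
        b ≠ c → b ≠ d → ∀ Q : Set α, a ∈ Q → b ∈ Q → c ∈ Q → d ∈ Q →
        (Q ∩ hv.β T).Nonempty := by
      intro a b c d ha hb hc hd hab hcd hac had hbc hbd Q qa qb qc qd
      have hA : ({a, b, c, d} : Finset α) ⊆ S := by
        intro x hx
        simp only [Finset.mem_insert, Finset.mem_singleton] at hx
        rcases hx with rfl | rfl | rfl | rfl <;> assumption
      have hc4 : ({a, b, c, d} : Finset α).card = 4 := by
        rw [Finset.card_insert_of_notMem (by simp [hab, hac, had]),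
          Finset.card_insert_of_notMem (by simp [hbc, hbd]),
          Finset.card_insert_of_notMem (by simp [hcd]), Finset.card_singleton]
      obtain ⟨x, hx, hxβ⟩ := hv.att_four hN hS hatt hA (by omega) hT
      refine ⟨x, ?_, hxβ⟩
      simp only [Finset.coe_insert, Finset.coe_singleton, Set.mem_insert_iff,
        Set.mem_singleton_iff] at hx
      rcases hx with rfl | rfl | rfl | rfl <;> assumption
    have neAC : ∀ p r : α, y p ∈ Ra → y r ∈ Rc → p ≠ r := by
      rintro p r hp hr rfl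
      exact hac _ hp hr
    have neBD : ∀ p r : α, y p ∈ Rb → y r ∈ Rd → p ≠ r := by
      rintro p r hp hr rfl
      exact hbd _ hp hr
    apply not_sep_of_conn (hv.conn T (by omega))
    · intro x hx hxT
      exact hv.avoid T (by omega) x hx (by simpa using hxT)
    · exact four (π z) (π z') z z' (hπS z hz) (hπS z' hz') (hZS z hz) (hZS z' hz')
        (πne z hz z' hz' hzz) hzz (neAC _ _ z3 z1) (neAC _ _ z3 z2) (neAC _ _ z4 z1)
        (neAC _ _ z4 z2) Z₁ a1 a2 a3 a4
    · exact four (π w) (π w') w w' (hπS w hw) (hπS w' hw') (hZS w hw) (hZS w' hw')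
        (πne w hw w' hw' hww) hww (neBD _ _ w3 w1) (neBD _ _ w3 w2) (neBD _ _ w4 w1)
        (neBD _ _ w4 w2) Z₂ b1 b2 b3 b4

end Frame

set_option maxHeartbeats 4000000 in
/-- Main result of this part. -/
theorem Haven.hasPair [Finite α] (hv : Haven H N) (hN : 22 ≤ N) : HasPair H := by
  classical
  obtain ⟨R, S, hRS'⟩ := hv.exists_goodPair (by omega) 11 (by omega)
  have hRS : hv.GoodPair 12 R S := hRS'
  have hatt := hRS.attS (by omega)
  obtain ⟨F, y, hF, hFd⟩ := hRS.exits (by omega)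
  obtain ⟨hnd, hch, hS, hRav, _⟩ := hRS
  have fr : Frame hv R S F y :=
    { conn := fun s hs => (hF s hs).1
      self := fun s hs => (hF s hs).2.1
      mem := fun s hs => (hF s hs).2.2.1
      memR := fun s hs => (hF s hs).2.2.2.1
      uniqR := fun s hs => (hF s hs).2.2.2.2.1
      avoid := fun s hs => (hF s hs).2.2.2.2.2.1
      uniqS := fun s hs x hx s' hs' e => (hF s hs).2.2.2.2.2.2 s' hs' (e ▸ hx)
      disj := hFd
      R_avoid := hRav }
  have hinj : ∀ s ∈ S, ∀ s' ∈ S, y s = y s' → s = s' := by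
    intro s hs s' hs' e
    by_contra hne
    have := Set.disjoint_left.1 (fr.disj s hs s' hs' hne) (fr.mem s hs)
    rw [e] at this
    exact this (fr.mem s' hs')
  set p : α → Bool := fun x => decide (∃ s ∈ S, y s = x) with hp
  have hcount : R.countP p = 12 := by
    rw [← card_filter_eq_countP hinj hnd, ← hS]
    congr 1
    apply Finset.filter_true_of_mem
    exact fun s hs => fr.memR s hs
  obtain ⟨R1, R1', e1, c1⟩ := split_count p R 3 (by omega)
  have hc1' : R1'.countP p = 9 := by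
    rw [e1, List.countP_append] at hcount
    omega
  obtain ⟨R2, R2', e2, c2⟩ := split_count p R1' 3 (by omega)
  have hc2' : R2'.countP p = 6 := by
    rw [e2, List.countP_append] at hc1'
    omega
  obtain ⟨R3, R4, e3, c3⟩ := split_count p R2' 3 (by omega)
  have c4 : R4.countP p = 3 := by
    rw [e3, List.countP_append] at hc2'
    omega
  subst e3
  subst e2
  subst e1
  have hndall := hnd
  have hchall := hch
  rw [List.nodup_append, List.nodup_append, List.nodup_append] at hnd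
  obtain ⟨nd1, ⟨nd2, ⟨nd3, nd4, d34⟩, d2⟩, d1⟩ := hnd
  rw [List.isChain_append, List.isChain_append, List.isChain_append] at hch
  obtain ⟨ch1, ⟨ch2, ⟨ch3, ch4, _⟩, _⟩, _⟩ := hch
  have hsub1 : ∀ x ∈ R1, x ∈ R1 ++ (R2 ++ (R3 ++ R4)) := fun x hx => by simp [hx]
  have hsub2 : ∀ x ∈ R2, x ∈ R1 ++ (R2 ++ (R3 ++ R4)) := fun x hx => by simp [hx]
  have hsub3 : ∀ x ∈ R3, x ∈ R1 ++ (R2 ++ (R3 ++ R4)) := fun x hx => by simp [hx]
  have hsub4 : ∀ x ∈ R4, x ∈ R1 ++ (R2 ++ (R3 ++ R4)) := fun x hx => by simp [hx]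
  have d12 : ∀ x ∈ R1, x ∉ R2 := fun x hx hx' => d1 x hx x (by simp [hx']) rfl
  have d13 : ∀ x ∈ R1, x ∉ R3 := fun x hx hx' => d1 x hx x (by simp [hx']) rfl
  have d14 : ∀ x ∈ R1, x ∉ R4 := fun x hx hx' => d1 x hx x (by simp [hx']) rfl
  have d23 : ∀ x ∈ R2, x ∉ R3 := fun x hx hx' => d2 x hx x (by simp [hx']) rfl
  have d24 : ∀ x ∈ R2, x ∉ R4 := fun x hx hx' => d2 x hx x (by simp [hx']) rfl
  have d34' : ∀ x ∈ R3, x ∉ R4 := fun x hx hx' => d34 x hx x hx' rfl
  set S1 := S.filter (fun s => y s ∈ R1) with hS1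
  set S2 := S.filter (fun s => y s ∈ R2) with hS2
  set S3 := S.filter (fun s => y s ∈ R3) with hS3
  set S4 := S.filter (fun s => y s ∈ R4) with hS4
  have k1 : S1.card = 3 := by rw [hS1, card_filter_eq_countP hinj nd1]; exact c1
  have k2 : S2.card = 3 := by rw [hS2, card_filter_eq_countP hinj nd2]; exact c2
  have k3 : S3.card = 3 := by rw [hS3, card_filter_eq_countP hinj nd3]; exact c3
  have k4 : S4.card = 3 := by rw [hS4, card_filter_eq_countP hinj nd4]; exact c4
  have hdis12 : Disjoint S1 S2 := by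
    rw [Finset.disjoint_left]
    intro s hs hs'
    exact d12 _ (Finset.mem_filter.1 hs).2 (Finset.mem_filter.1 hs').2
  have hdis34 : Disjoint S3 S4 := by
    rw [Finset.disjoint_left]
    intro s hs hs'
    exact d34' _ (Finset.mem_filter.1 hs).2 (Finset.mem_filter.1 hs').2
  obtain ⟨G, π, hG, hGd⟩ := hv.link_through (S := S) (Y := S1 ∪ S2) (Z := S3 ∪ S4) (k := 6)
    (by omega) (by rw [hS]; exact hatt)
    (Finset.union_subset (Finset.filter_subset _ _) (Finset.filter_subset _ _))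
    (Finset.union_subset (Finset.filter_subset _ _) (Finset.filter_subset _ _))
    (by
      intro s hs
      have := fr.memR s hs
      simp only [List.mem_append] at this
      simp only [hS1, hS2, hS3, hS4, Finset.mem_union, Finset.mem_filter]
      tauto)
    (by rw [Finset.card_union_of_disjoint hdis12, k1, k2])
    (by rw [Finset.card_union_of_disjoint hdis34, k3, k4])
    (by
      rw [Finset.disjoint_left]
      intro s hs hs'
      simp only [hS1, hS2, hS3, hS4, Finset.mem_union, Finset.mem_filter] at hs hs'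
      rcases hs with hs | hs <;> rcases hs' with hs' | hs'
      · exact d13 _ hs.2 hs'.2
      · exact d14 _ hs.2 hs'.2
      · exact d23 _ hs.2 hs'.2
      · exact d24 _ hs.2 hs'.2)
    (by norm_num)
  have πinj : ∀ z ∈ S3 ∪ S4, ∀ z' ∈ S3 ∪ S4, π z = π z' → z = z' := by
    intro z hz z' hz' e
    by_contra hne
    have := Set.disjoint_left.1 (hGd z hz z' hz' hne) (hG z hz).2.2.1
    rw [e] at this
    exact this (hG z' hz').2.2.1
  -- counting the types of the six links
  set n31 := S3.filter (fun z => π z ∈ S1) with hn31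
  set n32 := S3.filter (fun z => π z ∈ S2) with hn32
  set n41 := S4.filter (fun z => π z ∈ S1) with hn41
  set n42 := S4.filter (fun z => π z ∈ S2) with hn42
  have s3 : 3 ≤ n31.card + n32.card := by
    rw [← k3]
    calc S3.card ≤ (n31 ∪ n32).card := by
          apply Finset.card_le_card
          intro z hz
          have := (hG z (Finset.mem_union_left _ hz)).2.2.2.1
          simp only [hn31, hn32, Finset.mem_union, Finset.mem_filter] at this ⊢
          tauto
      _ ≤ _ := Finset.card_union_le _ _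
  have s4 : 3 ≤ n41.card + n42.card := by
    rw [← k4]
    calc S4.card ≤ (n41 ∪ n42).card := by
          apply Finset.card_le_card
          intro z hz
          have := (hG z (Finset.mem_union_right _ hz)).2.2.2.1
          simp only [hn41, hn42, Finset.mem_union, Finset.mem_filter] at this ⊢
          tauto
      _ ≤ _ := Finset.card_union_le _ _
  have s1 : n31.card + n41.card ≤ 3 := by
    rw [← k1, ← Finset.card_union_of_disjoint]
    · apply Finset.card_le_card_of_injOn π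
      · intro z hz
        simp only [hn31, hn41, Finset.coe_union, Finset.coe_filter, Set.mem_union,
          Set.mem_ofPred_eq] at hz
        rcases hz with hz | hz
        · exact hz.2
        · exact hz.2
      · intro z hz z' hz' e
        simp only [hn31, hn41, Finset.coe_union, Finset.coe_filter, Set.mem_union,
          Set.mem_ofPred_eq] at hz hz'
        apply πinj z _ z' _ e
        · rw [Finset.mem_union]; tauto
        · rw [Finset.mem_union]; tauto
    · exact Finset.disjoint_of_subset_left (Finset.filter_subset _ _)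
        (Finset.disjoint_of_subset_right (Finset.filter_subset _ _) hdis34)
  have s2 : n32.card + n42.card ≤ 3 := by
    rw [← k2, ← Finset.card_union_of_disjoint]
    · apply Finset.card_le_card_of_injOn π
      · intro z hz
        simp only [hn32, hn42, Finset.coe_union, Finset.coe_filter, Set.mem_union,
          Set.mem_ofPred_eq] at hz
        rcases hz with hz | hz
        · exact hz.2
        · exact hz.2
      · intro z hz z' hz' e
        simp only [hn32, hn42, Finset.coe_union, Finset.coe_filter, Set.mem_union,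
          Set.mem_ofPred_eq] at hz hz'
        apply πinj z _ z' _ e
        · rw [Finset.mem_union]; tauto
        · rw [Finset.mem_union]; tauto
    · exact Finset.disjoint_of_subset_left (Finset.filter_subset _ _)
        (Finset.disjoint_of_subset_right (Finset.filter_subset _ _) hdis34)
  have hZS : ∀ z ∈ S3 ∪ S4, z ∈ S := by
    intro z hz
    simp only [hS3, hS4, Finset.mem_union, Finset.mem_filter] at hz
    tauto
  have hπS : ∀ z ∈ S3 ∪ S4, π z ∈ S := by
    intro z hz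
    have := (hG z hz).2.2.2.1
    simp only [hS1, hS2, Finset.mem_union, Finset.mem_filter] at this
    tauto
  have hG' : ∀ z ∈ S3 ∪ S4, Conn H (G z) ∧ z ∈ G z ∧ π z ∈ G z ∧
      (∀ x ∈ G z, x ∈ hv.β S ∨ x = z ∨ x = π z) := by
    intro z hz
    obtain ⟨g1, g2, g3, _, g5⟩ := hG z hz
    exact ⟨g1, g2, g3, g5⟩
  have get : ∀ {i : Finset α} {A B : Finset α}, i = A.filter (fun z => π z ∈ B) → 2 ≤ i.card →
      ∃ z z', z ≠ z' ∧ z ∈ A ∧ z' ∈ A ∧ π z ∈ B ∧ π z' ∈ B := by
    intro i A B e h2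
    obtain ⟨z, hz, z', hz', hne⟩ := Finset.one_lt_card.1 (show 1 < i.card by omega)
    rw [e] at hz hz'
    exact ⟨z, z', hne, (Finset.mem_filter.1 hz).1, (Finset.mem_filter.1 hz').1,
      (Finset.mem_filter.1 hz).2, (Finset.mem_filter.1 hz').2⟩
  have mS : ∀ {i : Finset α} {Q : List α} {s : α}, i = S.filter (fun s => y s ∈ Q) → s ∈ i →
      y s ∈ Q := by
    intro i Q s e hs
    rw [e] at hs
    exact (Finset.mem_filter.1 hs).2
  by_cases hcase : 2 ≤ n31.card
  · have h42 : 2 ≤ n42.card := by omega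
    obtain ⟨z, z', hzz, hz, hz', hπz, hπz'⟩ := get hn31 hcase
    obtain ⟨w, w', hww, hw, hw', hπw, hπw'⟩ := get hn42 h42
    exact fr.hasPair (by omega) hS hatt hsub1 hsub2 hsub3 hsub4 ch1 ch2 ch3 ch4
      d12 d13 d14 d23 d24 d34' hZS hπS hG' hGd
      (Finset.mem_union_left _ hz) (Finset.mem_union_left _ hz')
      (Finset.mem_union_right _ hw) (Finset.mem_union_right _ hw') hzz hww
      (mS hS3 hz) (mS hS3 hz') (mS hS1 hπz) (mS hS1 hπz')
      (mS hS4 hw) (mS hS4 hw') (mS hS2 hπw) (mS hS2 hπw')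
  · have h32 : 2 ≤ n32.card := by omega
    have h41 : 2 ≤ n41.card := by omega
    obtain ⟨z, z', hzz, hz, hz', hπz, hπz'⟩ := get hn41 h41
    obtain ⟨w, w', hww, hw, hw', hπw, hπw'⟩ := get hn32 h32
    exact fr.hasPair (by omega) hS hatt hsub1 hsub2 hsub4 hsub3 ch1 ch2 ch4 ch3
      d12 d14 d13 d24 d23 (fun x hx hx' => d34' x hx' hx) hZS hπS hG' hGd
      (Finset.mem_union_right _ hz) (Finset.mem_union_right _ hz')
      (Finset.mem_union_left _ hw) (Finset.mem_union_left _ hw') hzz hww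
      (mS hS4 hz) (mS hS4 hz') (mS hS1 hπz) (mS hS1 hπz')
      (mS hS3 hw) (mS hS3 hw') (mS hS2 hπw) (mS hS2 hπw')

end TwwSep
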